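import Pool.Agent.L0h9.Gen.Node

/-! Translation of a double point to the origin. -/

set_option autoImplicit false

namespace Pool.Agent.L0h9.Gen

open MvPolynomial Pool.Agent.L0h9.Tri

variable {K : Type*} [Field K] {m k : ℕ}

/-- The index of the last variable `x`. -/
def xl (m k : ℕ) : Fin m ⊕ Fin (k + 2) := Sum.inr (Fin.last (k + 1))

/-- The index of the first variable `x`. -/
def x0 (m k : ℕ) : Fin m ⊕ Fin (k + 2) := Sum.inr 0

theorem xl_ne_x0 : xl m k ≠ x0 m k := by
  intro h
  exact Fin.last_pos.ne' (Sum.inr_injective h)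

/-- The affine substitution: the translation to `a`, and `x_last ↦ x_last + μ x₀`. -/
noncomputable def aff (a : Fin m ⊕ Fin (k + 2) → K) (μ : K) :
    MvPolynomial (Fin m ⊕ Fin (k + 2)) K →ₐ[K] MvPolynomial (Fin m ⊕ Fin (k + 2)) K :=
  aeval (fun v => X v + C (a v) + if v = xl m k then C μ * X (x0 m k) else 0)

theorem aff_X (a : Fin m ⊕ Fin (k + 2) → K) (μ : K) (v : Fin m ⊕ Fin (k + 2)) :
    aff a μ (X v) = X v + C (a v) + if v = xl m k then C μ * X (x0 m k) else 0 := by
  rw [aff, aeval_X]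

theorem aff_C (a : Fin m ⊕ Fin (k + 2) → K) (μ : K) (c : K) : aff a μ (C c) = C c := by
  rw [aff, algHom_C]
  rfl

theorem aff_injective [Infinite K] (a : Fin m ⊕ Fin (k + 2) → K) (μ : K) :
    Function.Injective (aff a μ) := by
  rw [injective_iff_map_eq_zero]
  intro G hG
  apply MvPolynomial.funext
  intro x
  have h1 : eval (fun v => x v - a v - if v = xl m k then μ * (x (x0 m k) - a (x0 m k)) else 0)
      (aff a μ G) = 0 := by rw [hG, map_zero]
  rw [eval_algHom] at h1
  rw [map_zero, ← h1]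
  congr 2
  funext v
  rw [aff_X]
  by_cases hv : v = xl m k
  · rw [if_pos hv, map_add, map_add, eval_X, eval_C, map_mul, eval_C, eval_X, if_pos hv,
      if_neg xl_ne_x0.symm]
    ring
  · rw [if_neg hv, map_add, map_add, eval_X, eval_C, if_neg hv, map_zero]
    ring

theorem eval_aff (a : Fin m ⊕ Fin (k + 2) → K) (μ : K) (G : MvPolynomial (Fin m ⊕ Fin (k + 2)) K) :
    eval 0 (aff a μ G) = eval a G := by
  rw [eval_algHom]
  congr 2
  funext v
  rw [aff_X]
  by_cases hv : v = xl m k
  · rw [if_pos hv]; simp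
  · rw [if_neg hv]; simp

/-- The derivative in the direction `(1, 0, …, 0, μ)`. -/
noncomputable def dir {A : Type*} [CommRing A] (μ : A) (F : MvPolynomial (Fin m ⊕ Fin (k + 2)) A) :
    MvPolynomial (Fin m ⊕ Fin (k + 2)) A :=
  pderiv (x0 m k) F + C μ * pderiv (xl m k) F

theorem pderiv_aff (a : Fin m ⊕ Fin (k + 2) → K) (μ : K) (v : Fin m ⊕ Fin (k + 2))
    (G : MvPolynomial (Fin m ⊕ Fin (k + 2)) K) :
    pderiv v (aff a μ G) = aff a μ (pderiv v G) +
      if v = x0 m k then C μ * aff a μ (pderiv (xl m k) G) else 0 := by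
  induction G using MvPolynomial.induction_on with
  | C c => rw [aff_C]; simp
  | add p q hp hq =>
    rw [map_add, map_add, hp, hq, map_add, map_add, map_add (pderiv _), map_add (aff a μ)]
    split_ifs
    · ring
    · ring
  | mul_X p n hp =>
    rw [map_mul, Derivation.leibniz, Derivation.leibniz, hp, smul_eq_mul, smul_eq_mul, smul_eq_mul,
      smul_eq_mul, map_add, map_mul, map_mul, Derivation.leibniz, smul_eq_mul, smul_eq_mul,
      map_add, map_mul, map_mul]
    have e : pderiv v (aff a μ (X n)) = aff a μ (pderiv v (X n)) +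
        if v = x0 m k then C μ * aff a μ (pderiv (xl m k) (X n)) else 0 := by
      classical
      rw [aff_X, map_add, map_add, pderiv_C, add_zero, pderiv_X, pderiv_X]
      have e1 : aff a μ ((Pi.single v 1 : Fin m ⊕ Fin (k + 2) →
          MvPolynomial (Fin m ⊕ Fin (k + 2)) K) n) = (Pi.single v 1 : Fin m ⊕ Fin (k + 2) →
          MvPolynomial (Fin m ⊕ Fin (k + 2)) K) n := by
        by_cases h : n = v
        · rw [h, Pi.single_eq_same, map_one]
        · rw [Pi.single_eq_of_ne h, map_zero]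
      have e2 : aff a μ ((Pi.single (xl m k) 1 : Fin m ⊕ Fin (k + 2) →
          MvPolynomial (Fin m ⊕ Fin (k + 2)) K) n) = (Pi.single (xl m k) 1 : Fin m ⊕ Fin (k + 2) →
          MvPolynomial (Fin m ⊕ Fin (k + 2)) K) n := by
        by_cases h : n = xl m k
        · rw [h, Pi.single_eq_same, map_one]
        · rw [Pi.single_eq_of_ne h, map_zero]
      rw [e1, e2]
      congr 1
      by_cases hn : n = xl m k
      · rw [if_pos hn, hn, Pi.single_eq_same, Derivation.leibniz, pderiv_C, smul_zero, add_zero,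
          smul_eq_mul, pderiv_X]
        by_cases hv : v = x0 m k
        · rw [if_pos hv, hv, Pi.single_eq_same]
        · rw [if_neg hv, Pi.single_eq_of_ne (Ne.symm hv), mul_zero]
      · rw [if_neg hn, Pi.single_eq_of_ne hn, map_zero, mul_zero, ite_self]
    rw [e]
    split_ifs
    · ring
    · ring

theorem pderiv_aff_x0 (a : Fin m ⊕ Fin (k + 2) → K) (μ : K)
    (G : MvPolynomial (Fin m ⊕ Fin (k + 2)) K) :
    pderiv (x0 m k) (aff a μ G) = aff a μ (dir μ G) := by
  rw [pderiv_aff, if_pos rfl, dir, map_add, map_mul, aff_C]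

theorem pderiv_aff_ne (a : Fin m ⊕ Fin (k + 2) → K) (μ : K) {v : Fin m ⊕ Fin (k + 2)}
    (hv : v ≠ x0 m k) (G : MvPolynomial (Fin m ⊕ Fin (k + 2)) K) :
    pderiv v (aff a μ G) = aff a μ (pderiv v G) := by
  rw [pderiv_aff, if_neg hv, add_zero]

theorem coeff_two {α : Type*} [DecidableEq α] (v : α) (G : MvPolynomial α K) :
    eval 0 (pderiv v (pderiv v G)) = 2 * coeff (Finsupp.single v 2) G := by
  rw [eval_zero_pderiv, coeff_pderiv, ← Finsupp.single_add, Finsupp.single_eq_same]
  push_cast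
  ring

theorem coeff_three {α : Type*} [DecidableEq α] (v : α) (G : MvPolynomial α K) :
    eval 0 (pderiv v (pderiv v (pderiv v G))) = 6 * coeff (Finsupp.single v 3) G := by
  rw [coeff_two, coeff_pderiv, ← Finsupp.single_add, Finsupp.single_eq_same]
  push_cast
  ring

/-- Comparison of exponents. -/
def Below (j₀ : Fin m) (e d : (Fin m ⊕ Fin (k + 2)) →₀ ℕ) : Prop :=
  (∀ j, e (Sum.inl j) ≤ d (Sum.inl j)) ∧ (∀ j, j ≠ j₀ → e (Sum.inl j) = d (Sum.inl j)) ∧
    ∑ i, e (Sum.inr i) ≤ ∑ i, d (Sum.inr i)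

theorem Below.add {j₀ : Fin m} {e d e' d' : (Fin m ⊕ Fin (k + 2)) →₀ ℕ} (h : Below j₀ e d)
    (h' : Below j₀ e' d') : Below j₀ (e + e') (d + d') := by
  obtain ⟨h1, h2, h3⟩ := h
  obtain ⟨h1', h2', h3'⟩ := h'
  refine ⟨fun j => ?_, fun j hj => ?_, ?_⟩
  · rw [Finsupp.add_apply, Finsupp.add_apply]
    exact add_le_add (h1 j) (h1' j)
  · rw [Finsupp.add_apply, Finsupp.add_apply, h2 j hj, h2' j hj]
  · simp only [Finsupp.add_apply, Finset.sum_add_distrib]
    exact add_le_add h3 h3'

theorem Below.refl (j₀ : Fin m) (d : (Fin m ⊕ Fin (k + 2)) →₀ ℕ) : Below j₀ d d :=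
  ⟨fun _ => le_rfl, fun _ _ => rfl, le_rfl⟩

theorem below_mul {j₀ : Fin m} {d e : (Fin m ⊕ Fin (k + 2)) →₀ ℕ}
    {P Q : MvPolynomial (Fin m ⊕ Fin (k + 2)) K} (hP : ∀ f ∈ P.support, Below j₀ f d)
    (hQ : ∀ f ∈ Q.support, Below j₀ f e) : ∀ f ∈ (P * Q).support, Below j₀ f (d + e) := by
  classical
  intro f hf
  have := support_mul P Q hf
  rw [Finset.mem_add] at this
  obtain ⟨f1, hf1, f2, hf2, rfl⟩ := this
  exact (hP f1 hf1).add (hQ f2 hf2)

theorem sum_single_inr (v : Fin m ⊕ Fin (k + 2)) (n : ℕ) :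
    ∑ i, (Finsupp.single v n : (Fin m ⊕ Fin (k + 2)) →₀ ℕ) (Sum.inr i) =
      Sum.elim (fun _ => 0) (fun _ => n) v := by
  rcases v with j | i
  · rw [Sum.elim_inl]
    exact Finset.sum_eq_zero fun i _ => Finsupp.single_eq_of_ne fun h => by cases h
  · rw [Sum.elim_inr, Finset.sum_eq_single i]
    · rw [Finsupp.single_eq_same]
    · intro b _ hb
      exact Finsupp.single_eq_of_ne fun h => hb (Sum.inr_injective h)
    · exact fun h => (h (Finset.mem_univ _)).elim

theorem below_aff_X {j₀ : Fin m} (a : Fin m ⊕ Fin (k + 2) → K) (μ : K)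
    (ha : ∀ j, j ≠ j₀ → a (Sum.inl j) = 0) (v : Fin m ⊕ Fin (k + 2)) :
    ∀ f ∈ (aff a μ (X v)).support, Below j₀ f (Finsupp.single v 1) := by
  classical
  intro f hf
  rw [mem_support_iff, aff_X, coeff_add, coeff_add] at hf
  by_cases h1 : f = Finsupp.single v 1
  · rw [h1]
    exact Below.refl _ _
  · rw [coeff_X, if_neg (Ne.symm h1), zero_add] at hf
    by_cases h2 : f = 0
    · -- the constant term
      subst h2
      have h3 : a v ≠ 0 := by
        intro h0
        apply hf
        rw [h0, C_0, coeff_zero, zero_add]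
        split_ifs
        · rw [coeff_C_mul, coeff_X, if_neg, mul_zero]
          intro h
          have := congrArg (fun f => f (x0 m k)) h
          simp at this
        · exact coeff_zero _
      refine ⟨fun j => Nat.zero_le _, fun j hj => ?_, ?_⟩
      · rw [Finsupp.zero_apply]
        by_cases hv : v = Sum.inl j
        · exact (h3 (by rw [hv]; exact ha j hj)).elim
        · rw [Finsupp.single_eq_of_ne (Ne.symm hv)]
      · simp
    · rw [coeff_C, if_neg (Ne.symm h2), zero_add] at hf
      by_cases hv : v = xl m k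
      · rw [if_pos hv, coeff_C_mul, coeff_X] at hf
        have h4 : f = Finsupp.single (x0 m k) 1 := by
          by_contra hne
          rw [if_neg (Ne.symm hne), mul_zero] at hf
          exact hf rfl
        rw [h4, hv]
        refine ⟨fun j => ?_, fun j _ => ?_, ?_⟩
        · rw [Finsupp.single_eq_of_ne (fun h => by cases h)]
          exact Nat.zero_le _
        · rw [Finsupp.single_eq_of_ne (fun h => by cases h),
            Finsupp.single_eq_of_ne (fun h => by cases h)]
        · rw [sum_single_inr, sum_single_inr]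
          exact le_rfl
      · rw [if_neg hv, coeff_zero] at hf
        exact (hf rfl).elim

theorem below_aff_monomial {j₀ : Fin m} (a : Fin m ⊕ Fin (k + 2) → K) (μ : K)
    (ha : ∀ j, j ≠ j₀ → a (Sum.inl j) = 0) (d : (Fin m ⊕ Fin (k + 2)) →₀ ℕ) :
    ∀ c : K, ∀ f ∈ (aff a μ (monomial d c)).support, Below j₀ f d := by
  classical
  induction d using Finsupp.induction_linear with
  | zero =>
    intro c f hf
    have h1 : aff a μ (monomial 0 c) = C c := aff_C a μ c
    rw [h1, mem_support_iff, coeff_C] at hf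
    have : f = 0 := by
      by_contra hne
      rw [if_neg (Ne.symm hne)] at hf
      exact hf rfl
    rw [this]
    exact Below.refl _ _
  | add d e hd he =>
    intro c
    have h1 : (monomial (d + e) c : MvPolynomial (Fin m ⊕ Fin (k + 2)) K) =
        monomial d c * monomial e 1 := by
      rw [monomial_mul, mul_one]
    rw [h1, map_mul]
    exact below_mul (hd c) (he 1)
  | single v n =>
    induction n with
    | zero =>
      intro c f hf
      rw [Finsupp.single_zero] at hf ⊢
      have h1 : aff a μ (monomial 0 c) = C c := aff_C a μ c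
      rw [h1, mem_support_iff, coeff_C] at hf
      have : f = 0 := by
        by_contra hne
        rw [if_neg (Ne.symm hne)] at hf
        exact hf rfl
      rw [this]
      exact Below.refl _ _
    | succ n ih =>
      intro c
      have h1 : (monomial (Finsupp.single v (n + 1)) c : MvPolynomial (Fin m ⊕ Fin (k + 2)) K) =
          monomial (Finsupp.single v n) c * X v := by
        rw [X, monomial_mul, mul_one, Finsupp.single_add]
      rw [h1, map_mul, Finsupp.single_add]
      exact below_mul (ih c) (below_aff_X a μ ha v)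

theorem below_aff {j₀ : Fin m} (a : Fin m ⊕ Fin (k + 2) → K) (μ : K)
    (ha : ∀ j, j ≠ j₀ → a (Sum.inl j) = 0) (F : MvPolynomial (Fin m ⊕ Fin (k + 2)) K) :
    ∀ f ∈ (aff a μ F).support, ∃ d ∈ F.support, Below j₀ f d := by
  intro f hf
  rw [mem_support_iff] at hf
  conv at hf => rw [F.as_sum]
  rw [map_sum, coeff_sum] at hf
  obtain ⟨d, hd, hd2⟩ := Finset.exists_ne_zero_of_sum_ne_zero hf
  exact ⟨d, hd, below_aff_monomial a μ ha d _ f (mem_support_iff.mpr hd2)⟩

/-- The conditions at a double point `a`, in the direction `(1, 0, …, 0, μ)`. -/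
structure NodeAt (F : MvPolynomial (Fin m ⊕ Fin (k + 2)) K) (a : Fin m ⊕ Fin (k + 2) → K)
    (μ : K) : Prop where
  zero : eval a F = 0
  singular : ∀ i, eval a (pderiv (Sum.inr i) F) = 0
  trans : ∀ j, eval a (pderiv (Sum.inl j) F) ≠ 0
  two : eval a (dir μ (dir μ F)) = 0
  three : eval a (dir μ (dir μ (dir μ F))) ≠ 0
  last : eval a (pderiv (xl m k) (pderiv (xl m k) F)) ≠ 0

theorem NodeAt.isNode [CharZero K] {F : MvPolynomial (Fin m ⊕ Fin (k + 2)) K}
    {a : Fin m ⊕ Fin (k + 2) → K} {μ : K} (h : NodeAt F a μ) (j₀ : Fin m)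
    (ha : ∀ j, j ≠ j₀ → a (Sum.inl j) = 0)
    (h4 : ∀ d ∈ F.support, ∀ j, d (Sum.inl j) ≤ 4)
    (h6 : ∀ d ∈ F.support, (∀ j, j ≠ j₀ → d (Sum.inl j) = 0) → ∑ i, d (Sum.inr i) ≤ 6) :
    IsNode (aff a μ F) := by
  classical
  have hinl : ∀ j : Fin m, (Sum.inl j : Fin m ⊕ Fin (k + 2)) ≠ x0 m k := fun j h => by cases h
  refine ⟨?_, ?_, ?_, ?_, ?_, ?_, ?_, ?_⟩
  · rw [← eval_zero_eq, eval_aff, h.zero]
  · intro i
    rw [← eval_zero_pderiv]
    by_cases hi : i = 0
    · rw [hi]
      change eval 0 (pderiv (x0 m k) (aff a μ F)) = 0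
      rw [pderiv_aff_x0, eval_aff, dir, map_add, map_mul]
      have h1 : eval a (pderiv (x0 m k) F) = 0 := h.singular 0
      have h2 : eval a (pderiv (xl m k) F) = 0 := h.singular _
      rw [h1, h2]
      ring
    · rw [pderiv_aff_ne a μ (fun h => hi (Sum.inr_injective h)), eval_aff]
      exact h.singular i
  · intro j
    rw [← eval_zero_pderiv, pderiv_aff_ne a μ (hinl j), eval_aff]
    exact h.trans j
  · intro f hf j
    obtain ⟨d, hd, hfd⟩ := below_aff a μ ha F f hf
    exact (hfd.1 j).trans (h4 d hd j)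
  · intro f hf hj
    obtain ⟨d, hd, hfd⟩ := below_aff a μ ha F f hf
    exact hfd.2.2.trans (h6 d hd fun j hjne => by rw [← hfd.2.1 j hjne, hj j])
  · have h1 : eval 0 (pderiv (x0 m k) (pderiv (x0 m k) (aff a μ F))) = 0 := by
      rw [pderiv_aff_x0, pderiv_aff_x0, eval_aff, h.two]
    rw [coeff_two] at h1
    exact (mul_eq_zero.mp h1).resolve_left two_ne_zero
  · intro h0
    have h1 : eval 0 (pderiv (x0 m k) (pderiv (x0 m k) (pderiv (x0 m k) (aff a μ F)))) = 0 := by
      rw [coeff_three]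
      change 6 * coeff (Finsupp.single (Sum.inr 0) 3) (aff a μ F) = 0
      rw [h0, mul_zero]
    rw [pderiv_aff_x0, pderiv_aff_x0, pderiv_aff_x0, eval_aff] at h1
    exact h.three h1
  · intro h0
    have h1 : eval 0 (pderiv (xl m k) (pderiv (xl m k) (aff a μ F))) = 0 := by
      rw [coeff_two]
      change 2 * coeff (Finsupp.single (Sum.inr (Fin.last (k + 1))) 2) (aff a μ F) = 0
      rw [h0, mul_zero]
    rw [pderiv_aff_ne a μ xl_ne_x0, pderiv_aff_ne a μ xl_ne_x0, eval_aff] at h1
    exact h.last h1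

/-- **Potential density at a double point defined over `K`.** -/
theorem NodeAt.dense {Ω : Type*} [Field Ω] [CharZero K] [CharZero Ω]
    [Algebra.IsAlgebraic ℚ Ω] [Algebra K Ω] [IsAlgClosed Ω]
    {F : MvPolynomial (Fin m ⊕ Fin (k + 2)) K}
    {a : Fin m ⊕ Fin (k + 2) → K} {μ : K} (h : NodeAt F a μ) (j₀ : Fin m)
    (ha : ∀ j, j ≠ j₀ → a (Sum.inl j) = 0)
    (h4 : ∀ d ∈ F.support, ∀ j, d (Sum.inl j) ≤ 4)
    (h6 : ∀ d ∈ F.support, (∀ j, j ≠ j₀ → d (Sum.inl j) = 0) → ∑ i, d (Sum.inr i) ≤ 6) :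
    ∃ L : IntermediateField K Ω, FiniteDimensional K L ∧ BaseDense (map (algebraMap K L) F) := by
  have hN := h.isNode j₀ ha h4 h6
  obtain ⟨L, hL, hd⟩ := base_quadratic Ω (blow (aff a μ F)) 0 hN.isTri
  refine ⟨L, hL, ?_⟩
  have : CharZero L := charZero_of_injective_algebraMap (algebraMap K L).injective
  set φ := algebraMap K L with hφ
  -- base change
  have e1 : ∀ G : MvPolynomial (Fin m ⊕ Fin (k + 2)) K,
      theta L m k (map φ G) = map φ (theta K m k G) := by
    intro G
    induction G using MvPolynomial.induction_on with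
    | C c =>
      rw [map_C, theta, theta, algHom_C, algHom_C, algebraMap_eq, algebraMap_eq, map_C]
    | add p q hp hq => rw [map_add, map_add, map_add, map_add, hp, hq]
    | mul_X p n hp =>
      rw [map_mul, map_mul, map_mul, map_mul, hp, map_X, theta, theta, aeval_X, aeval_X]
      congr 1
      rcases n with j | i
      · rw [Sum.elim_inl, Sum.elim_inl, map_mul, map_pow, map_X, map_X]
      · rw [Sum.elim_inr, Sum.elim_inr]
        split_ifs
        · rw [map_X]
        · rw [map_mul, map_X, map_X]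
  have e2 : ∀ G : MvPolynomial (Fin m ⊕ Fin (k + 2)) K,
      aff (fun v => φ (a v)) (φ μ) (map φ G) = map φ (aff a μ G) := by
    intro G
    induction G using MvPolynomial.induction_on with
    | C c => rw [map_C, aff_C, aff_C, map_C]
    | add p q hp hq => rw [map_add, map_add, map_add, map_add, hp, hq]
    | mul_X p n hp =>
      rw [map_mul, map_mul, map_mul, map_mul, hp, map_X, aff_X, aff_X]
      congr 1
      rw [map_add, map_add, map_X, map_C]
      split_ifs
      · rw [map_mul, map_C, map_X]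
      · rw [map_zero]
  have e3 : theta L m k (aff (fun v => φ (a v)) (φ μ) (map φ F)) =
      (X (Fin.natAdd m (0 : Fin (k + 2)))) ^ 2 * map φ (blow (aff a μ F)) := by
    rw [e2, e1, theta_eq _ hN.wt_ge, map_mul, map_pow, map_X]
  refine BaseDense.of_subst ((theta L m k).comp (aff (fun v => φ (a v)) (φ μ))) ?_
    (X (Fin.natAdd m (0 : Fin (k + 2)))) (X_ne_zero _) e3 hd
  rw [AlgHom.coe_comp]
  exact theta_injective.comp (aff_injective _ _)

end Pool.Agent.L0h9.Gen
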