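import Pool.Agent.L0h9.Gen.Subst

/-! The substitution `x = s (1, y)`, `t = s² t''` at a double point. -/

set_option autoImplicit false

namespace Pool.Agent.L0h9.Gen

open MvPolynomial Pool.Agent.L0h9.Tri

variable {K : Type*} [Field K] {m k : ℕ}

/-- The weight of a monomial: `2` for the variables `t`, `1` for the variables `x`. -/
def wt (d : (Fin m ⊕ Fin (k + 2)) →₀ ℕ) : ℕ :=
  2 * ∑ j, d (Sum.inl j) + ∑ i, d (Sum.inr i)

/-- The exponents after the substitution and the division by `s²`. -/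
noncomputable def mu (d : (Fin m ⊕ Fin (k + 2)) →₀ ℕ) : Fin (m + (k + 2)) →₀ ℕ :=
  Finsupp.equivFunOnFinite.symm (Fin.addCases (motive := fun _ => ℕ) (fun j => d (Sum.inl j))
    (fun i => if i = 0 then wt d - 2 else d (Sum.inr i)))

theorem mu_left (d : (Fin m ⊕ Fin (k + 2)) →₀ ℕ) (j : Fin m) :
    mu d (Fin.castAdd (k + 2) j) = d (Sum.inl j) := by
  rw [mu, Finsupp.equivFunOnFinite_symm_apply_apply, Fin.addCases_left]

theorem mu_zero (d : (Fin m ⊕ Fin (k + 2)) →₀ ℕ) :
    mu d (Fin.natAdd m 0) = wt d - 2 := by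
  rw [mu, Finsupp.equivFunOnFinite_symm_apply_apply, Fin.addCases_right, if_pos rfl]

theorem mu_right (d : (Fin m ⊕ Fin (k + 2)) →₀ ℕ) {i : Fin (k + 2)} (hi : i ≠ 0) :
    mu d (Fin.natAdd m i) = d (Sum.inr i) := by
  rw [mu, Finsupp.equivFunOnFinite_symm_apply_apply, Fin.addCases_right, if_neg hi]

theorem mu_injective {d e : (Fin m ⊕ Fin (k + 2)) →₀ ℕ} (hd : 2 ≤ wt d) (he : 2 ≤ wt e)
    (h : mu d = mu e) : d = e := by
  have h1 : ∀ j, d (Sum.inl j) = e (Sum.inl j) := fun j => by rw [← mu_left, h, mu_left]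
  have h2 : ∀ i, i ≠ 0 → d (Sum.inr i) = e (Sum.inr i) := fun i hi => by
    rw [← mu_right d hi, h, mu_right e hi]
  have h3 : wt d = wt e := by
    have := mu_zero d
    rw [h, mu_zero] at this
    omega
  have h4 : d (Sum.inr 0) = e (Sum.inr 0) := by
    rw [wt, wt, Fin.sum_univ_succ, Fin.sum_univ_succ (fun i => e (Sum.inr i))] at h3
    rw [Finset.sum_congr rfl fun j _ => h1 j] at h3
    rw [Finset.sum_congr rfl fun j _ => h2 (Fin.succ j) (Fin.succ_ne_zero j)] at h3
    omega
  ext (j | i)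
  · exact h1 j
  · by_cases hi : i = 0
    · rw [hi]; exact h4
    · exact h2 i hi

/-- The polynomial `F(s² t'', s (1, y)) / s²`. -/
noncomputable def blow (F : MvPolynomial (Fin m ⊕ Fin (k + 2)) K) :
    MvPolynomial (Fin (m + (k + 2))) K :=
  ∑ d ∈ F.support, monomial (mu d) (coeff d F)

/-- The substitution. -/
noncomputable def theta (K : Type*) [Field K] (m k : ℕ) :
    MvPolynomial (Fin m ⊕ Fin (k + 2)) K →ₐ[K] MvPolynomial (Fin (m + (k + 2))) K :=
  aeval (Sum.elim
    (fun j => (X (Fin.natAdd m (0 : Fin (k + 2)))) ^ 2 * X (Fin.castAdd (k + 2) j))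
    (fun i => if i = 0 then X (Fin.natAdd m (0 : Fin (k + 2))) else
      X (Fin.natAdd m (0 : Fin (k + 2))) * X (Fin.natAdd m i)))

theorem theta_monomial (d : (Fin m ⊕ Fin (k + 2)) →₀ ℕ) (hd : 2 ≤ wt d) (c : K) :
    theta K m k (monomial d c) =
      (X (Fin.natAdd m (0 : Fin (k + 2)))) ^ 2 * monomial (mu d) c := by
  rw [theta, aeval_monomial, monomial_eq, Finsupp.prod_fintype _ _ (fun _ => pow_zero _),
    Finsupp.prod_fintype _ _ (fun _ => pow_zero _), Fintype.prod_sum_type]
  have e1 : (∏ i : Fin (m + (k + 2)), (X i : MvPolynomial (Fin (m + (k + 2))) K) ^ mu d i) =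
      (∏ j : Fin m, X (Fin.castAdd (k + 2) j) ^ d (Sum.inl j)) *
      (X (Fin.natAdd m (0 : Fin (k + 2))) ^ (wt d - 2) *
        ∏ i : Fin (k + 1), X (Fin.natAdd m i.succ) ^ d (Sum.inr i.succ)) := by
    rw [Fin.prod_univ_add]
    congr 1
    · refine Finset.prod_congr rfl fun j _ => ?_
      rw [mu_left]
    · rw [Fin.prod_univ_succ, mu_zero]
      congr 1
      refine Finset.prod_congr rfl fun j _ => ?_
      rw [mu_right d (Fin.succ_ne_zero j)]
  rw [e1]
  have e2 : (∏ x : Fin m, (Sum.elim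
      (fun j => (X (Fin.natAdd m (0 : Fin (k + 2)))) ^ 2 * X (Fin.castAdd (k + 2) j))
      (fun i => if i = 0 then X (Fin.natAdd m (0 : Fin (k + 2))) else
        X (Fin.natAdd m (0 : Fin (k + 2))) * X (Fin.natAdd m i)) (Sum.inl x) :
        MvPolynomial (Fin (m + (k + 2))) K) ^ d (Sum.inl x)) =
      X (Fin.natAdd m (0 : Fin (k + 2))) ^ (2 * ∑ j, d (Sum.inl j)) *
      ∏ j : Fin m, X (Fin.castAdd (k + 2) j) ^ d (Sum.inl j) := by
    simp only [Sum.elim_inl]
    rw [Finset.prod_congr rfl fun x _ => mul_pow _ _ _, Finset.prod_mul_distrib]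
    congr 1
    rw [pow_mul, ← Finset.prod_pow_eq_pow_sum]
  have e3 : (∏ x : Fin (k + 2), (Sum.elim
      (fun j => (X (Fin.natAdd m (0 : Fin (k + 2)))) ^ 2 * X (Fin.castAdd (k + 2) j))
      (fun i => if i = 0 then X (Fin.natAdd m (0 : Fin (k + 2))) else
        X (Fin.natAdd m (0 : Fin (k + 2))) * X (Fin.natAdd m i)) (Sum.inr x) :
        MvPolynomial (Fin (m + (k + 2))) K) ^ d (Sum.inr x)) =
      X (Fin.natAdd m (0 : Fin (k + 2))) ^ (∑ i, d (Sum.inr i)) *
      ∏ i : Fin (k + 1), X (Fin.natAdd m i.succ) ^ d (Sum.inr i.succ) := by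
    simp only [Sum.elim_inr]
    rw [Fin.prod_univ_succ, if_pos rfl, Fin.sum_univ_succ, pow_add, mul_assoc]
    congr 1
    rw [← Finset.prod_pow_eq_pow_sum, ← Finset.prod_mul_distrib]
    refine Finset.prod_congr rfl fun i _ => ?_
    rw [if_neg (Fin.succ_ne_zero i), mul_pow]
  rw [e2, e3]
  have e4 : wt d = 2 + (wt d - 2) := by omega
  have e5 : (X (Fin.natAdd m (0 : Fin (k + 2))) : MvPolynomial (Fin (m + (k + 2))) K) ^
      (2 * ∑ j, d (Sum.inl j)) * X (Fin.natAdd m (0 : Fin (k + 2))) ^ (∑ i, d (Sum.inr i)) =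
      X (Fin.natAdd m (0 : Fin (k + 2))) ^ 2 * X (Fin.natAdd m (0 : Fin (k + 2))) ^ (wt d - 2) := by
    rw [← pow_add, ← pow_add, ← e4, wt]
  rw [algebraMap_eq]
  linear_combination (C c * (∏ j : Fin m, X (Fin.castAdd (k + 2) j) ^ d (Sum.inl j)) *
    ∏ i : Fin (k + 1), X (Fin.natAdd m i.succ) ^ d (Sum.inr i.succ)) * e5

theorem theta_eq (F : MvPolynomial (Fin m ⊕ Fin (k + 2)) K) (h : ∀ d ∈ F.support, 2 ≤ wt d) :
    theta K m k F = (X (Fin.natAdd m (0 : Fin (k + 2)))) ^ 2 * blow F := by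
  conv_lhs => rw [F.as_sum]
  rw [map_sum, blow, Finset.mul_sum]
  exact Finset.sum_congr rfl fun d hd => theta_monomial d (h d hd) _

theorem theta_injective [Infinite K] : Function.Injective (theta K m k) := by
  rw [injective_iff_map_eq_zero]
  intro G hG
  have h0 : X (Sum.inr 0) * G = 0 := by
    apply MvPolynomial.funext
    intro x
    rw [map_zero, map_mul, eval_X]
    by_cases hx : x (Sum.inr 0) = 0
    · rw [hx, zero_mul]
    · -- the preimage
      set y : Fin (m + (k + 2)) → K := (Fin.addCases (motive := fun _ => K)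
        (fun j : Fin m => x (Sum.inl j) / x (Sum.inr 0) ^ 2)
        (fun i : Fin (k + 2) => if i = 0 then x (Sum.inr 0) else
          x (Sum.inr i) / x (Sum.inr 0)) : Fin (m + (k + 2)) → K) with hy
      have y0 : y (Fin.natAdd m (0 : Fin (k + 2))) = x (Sum.inr 0) := by
        rw [hy, Fin.addCases_right, if_pos rfl]
      have h1 : eval y (theta K m k G) = 0 := by rw [hG, map_zero]
      rw [eval_algHom] at h1
      have h2 : (fun i => eval y (theta K m k (X i))) = x := by
        funext i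
        rcases i with j | i
        · rw [theta, aeval_X, Sum.elim_inl, map_mul, map_pow, eval_X, eval_X, y0]
          have : y (Fin.castAdd (k + 2) j) = x (Sum.inl j) / x (Sum.inr 0) ^ 2 := by
            rw [hy, Fin.addCases_left]
          rw [this]
          field_simp
        · rw [theta, aeval_X, Sum.elim_inr]
          by_cases hi : i = 0
          · rw [if_pos hi, eval_X, y0, hi]
          · rw [if_neg hi, map_mul, eval_X, eval_X, y0]
            have : y (Fin.natAdd m i) = x (Sum.inr i) / x (Sum.inr 0) := by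
              rw [hy, Fin.addCases_right, if_neg hi]
            rw [this]
            field_simp
      rw [h2] at h1
      rw [h1, mul_zero]
  exact (mul_eq_zero.mp h0).resolve_left (X_ne_zero _)

theorem coeff_blow (F : MvPolynomial (Fin m ⊕ Fin (k + 2)) K) (h : ∀ d ∈ F.support, 2 ≤ wt d)
    (d : (Fin m ⊕ Fin (k + 2)) →₀ ℕ) (hd : 2 ≤ wt d) : coeff (mu d) (blow F) = coeff d F := by
  rw [blow, coeff_sum]
  by_cases hdF : d ∈ F.support
  · rw [Finset.sum_eq_single d]
    · rw [coeff_monomial, if_pos rfl]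
    · intro e he hne
      rw [coeff_monomial, if_neg fun h1 => hne (mu_injective (h e he) hd h1)]
    · exact fun h1 => (h1 hdF).elim
  · rw [notMem_support_iff.mp hdF]
    refine Finset.sum_eq_zero fun e he => ?_
    rw [coeff_monomial, if_neg fun h1 => hdF (mu_injective (h e he) hd h1 ▸ he)]

theorem mem_support_blow {F : MvPolynomial (Fin m ⊕ Fin (k + 2)) K}
    {e : Fin (m + (k + 2)) →₀ ℕ} (he : e ∈ (blow F).support) :
    ∃ d ∈ F.support, e = mu d := by
  classical
  rw [mem_support_iff, blow, coeff_sum] at he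
  obtain ⟨d, hd, hed⟩ := Finset.exists_ne_zero_of_sum_ne_zero he
  refine ⟨d, hd, ?_⟩
  rw [coeff_monomial] at hed
  by_contra hne
  rw [if_neg (fun h => hne h.symm)] at hed
  exact hed rfl

end Pool.Agent.L0h9.Gen
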