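import Mathlib

/-! Dominant polynomial maps: the image contains the general point. -/

set_option autoImplicit false

namespace Pool.Agent.L0h9.Gen

open MvPolynomial

/-- Extension of homomorphisms into algebraically closed fields along integral extensions. -/
theorem ext_integral {R S Ω : Type*} [CommRing R] [CommRing S] [Field Ω] [IsAlgClosed Ω]
    [Algebra R S] [Algebra.IsIntegral R S] (hinj : Function.Injective (algebraMap R S))
    (φ : R →+* Ω) : ∃ ψ : S →+* Ω, ψ.comp (algebraMap R S) = φ := by
  have hp : (RingHom.ker φ).IsPrime := RingHom.ker_isPrime φ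
  obtain ⟨Q, -, hQ, hQ2⟩ := Ideal.exists_ideal_over_prime_of_isIntegral (RingHom.ker φ)
    (⊥ : Ideal S) (by
      intro x hx
      rw [Ideal.mem_comap, Ideal.mem_bot] at hx
      have : x = 0 := hinj (by rw [hx, map_zero])
      rw [this]
      exact zero_mem _)
  have hle : RingHom.ker φ ≤ Q.comap (algebraMap R S) := hQ2.ge
  let _ : Algebra (R ⧸ RingHom.ker φ) (S ⧸ Q) := (Ideal.quotientMap Q (algebraMap R S) hle).toAlgebra
  let _ : Algebra (R ⧸ RingHom.ker φ) Ω := (Ideal.Quotient.lift (RingHom.ker φ) φ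
    (fun a ha => ha)).toAlgebra
  have hinj1 : Function.Injective (algebraMap (R ⧸ RingHom.ker φ) (S ⧸ Q)) :=
    Ideal.quotientMap_injective' hQ2.le
  have hinj2 : Function.Injective (algebraMap (R ⧸ RingHom.ker φ) Ω) :=
    RingHom.kerLift_injective φ
  have hint : Algebra.IsIntegral (R ⧸ RingHom.ker φ) (S ⧸ Q) := by
    constructor
    intro x
    obtain ⟨s, rfl⟩ := Ideal.Quotient.mk_surjective x
    obtain ⟨p, hp1, hp2⟩ := Algebra.IsIntegral.isIntegral (R := R) s
    refine ⟨p.map (Ideal.Quotient.mk _), hp1.map _, ?_⟩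
    rw [Polynomial.eval₂_map]
    have h1 : (algebraMap (R ⧸ RingHom.ker φ) (S ⧸ Q)).comp (Ideal.Quotient.mk (RingHom.ker φ)) =
        (Ideal.Quotient.mk Q).comp (algebraMap R S) := by
      ext r
      rfl
    rw [h1, ← Polynomial.hom_eval₂, hp2, map_zero]
  have : IsDomain (S ⧸ Q) := Ideal.Quotient.isDomain Q
  have : IsDomain (R ⧸ RingHom.ker φ) := Ideal.Quotient.isDomain _
  have : Module.IsTorsionFree (R ⧸ RingHom.ker φ) (S ⧸ Q) :=
    Module.isTorsionFree_iff_algebraMap_injective.mpr hinj1
  have : Module.IsTorsionFree (R ⧸ RingHom.ker φ) Ω :=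
    Module.isTorsionFree_iff_algebraMap_injective.mpr hinj2
  have : Algebra.IsAlgebraic (R ⧸ RingHom.ker φ) (S ⧸ Q) := Algebra.IsIntegral.isAlgebraic
  let χ : (S ⧸ Q) →ₐ[R ⧸ RingHom.ker φ] Ω := IsAlgClosed.lift
  refine ⟨χ.toRingHom.comp (Ideal.Quotient.mk Q), ?_⟩
  ext r
  have h2 := χ.commutes (Ideal.Quotient.mk _ r)
  exact h2

/-- Extension of homomorphisms along algebraic extensions of finite type, outside the zeros of an
element. -/
theorem ext_algebraic {R S : Type*} [CommRing R] [IsDomain R] [CommRing S] [IsDomain S]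
    [Algebra R S] (hinj : Function.Injective (algebraMap R S)) [Algebra.IsAlgebraic R S]
    (T : Finset S) (hT : Algebra.adjoin R (T : Set S) = ⊤) {h : S} (hh : h ≠ 0) :
    ∃ Φ : R, Φ ≠ 0 ∧ ∀ {Ω : Type*} [Field Ω] [IsAlgClosed Ω] (φ : R →+* Ω), φ Φ ≠ 0 →
      ∃ ψ : S →+* Ω, ψ.comp (algebraMap R S) = φ ∧ ψ h ≠ 0 := by
  classical
  have hy : ∀ s : S, ∃ y : R, y ≠ 0 ∧ IsIntegral R (y • s) := fun s =>
    (Algebra.IsAlgebraic.isAlgebraic (R := R) s).exists_integral_multiple
  choose y hy0 hyi using hy
  obtain ⟨r, hr0, g, hg⟩ := (Algebra.IsAlgebraic.isAlgebraic (R := R) h).exists_nonzero_dvd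
    (mem_nonZeroDivisors_of_ne_zero hh)
  set Φ : R := r * ∏ s ∈ T, y s with hΦ
  have hΦ0 : Φ ≠ 0 := mul_ne_zero hr0 (Finset.prod_ne_zero_iff.mpr fun s _ => hy0 s)
  -- every element is integral after multiplication by a power of `Φ`
  have hint : ∀ s : S, ∃ n : ℕ, IsIntegral R (algebraMap R S Φ ^ n * s) := by
    intro s
    have hs : s ∈ Algebra.adjoin R (T : Set S) := by rw [hT]; exact Algebra.mem_top
    induction hs using Algebra.adjoin_induction with
    | mem x hx =>
      refine ⟨1, ?_⟩
      have h1 : algebraMap R S Φ ^ 1 * x = algebraMap R S (r * ∏ s ∈ T.erase x, y s) * (y x • x) := by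
        rw [pow_one, hΦ, ← Finset.mul_prod_erase T y hx, Algebra.smul_def]
        simp only [map_mul]
        ring
      rw [h1]
      exact isIntegral_algebraMap.mul (hyi x)
    | algebraMap a => exact ⟨0, by rw [pow_zero, one_mul]; exact isIntegral_algebraMap⟩
    | add a b _ _ ha hb =>
      obtain ⟨n, hn⟩ := ha
      obtain ⟨m, hm⟩ := hb
      refine ⟨n + m, ?_⟩
      have h1 : algebraMap R S Φ ^ (n + m) * (a + b) =
          algebraMap R S (Φ ^ m) * (algebraMap R S Φ ^ n * a) +
          algebraMap R S (Φ ^ n) * (algebraMap R S Φ ^ m * b) := by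
        rw [map_pow, map_pow]
        ring
      rw [h1]
      exact (isIntegral_algebraMap.mul hn).add (isIntegral_algebraMap.mul hm)
    | mul a b _ _ ha hb =>
      obtain ⟨n, hn⟩ := ha
      obtain ⟨m, hm⟩ := hb
      refine ⟨n + m, ?_⟩
      have h1 : algebraMap R S Φ ^ (n + m) * (a * b) =
          (algebraMap R S Φ ^ n * a) * (algebraMap R S Φ ^ m * b) := by
        ring
      rw [h1]
      exact hn.mul hm
  choose n hn using hint
  refine ⟨Φ, hΦ0, ?_⟩
  intro Ω _ _ φ hφ
  obtain ⟨ψ₀, hψ₀⟩ := ext_integral (R := R) (S := integralClosure R S) (by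
    intro a b hab
    exact hinj (congrArg Subtype.val hab)) φ
  have hψ₀' : ∀ a : R, ψ₀ (algebraMap R (integralClosure R S) a) = φ a := fun a => by
    rw [← hψ₀]; rfl
  -- independence of the exponent
  have key : ∀ (s : S) (a b : ℕ) (ha : IsIntegral R (algebraMap R S Φ ^ a * s))
      (hb : IsIntegral R (algebraMap R S Φ ^ b * s)),
      φ Φ ^ b * ψ₀ ⟨_, ha⟩ = φ Φ ^ a * ψ₀ ⟨_, hb⟩ := by
    intro s a b ha hb
    rw [← map_pow φ, ← map_pow φ, ← hψ₀', ← hψ₀', ← map_mul ψ₀, ← map_mul ψ₀]
    congr 1
    apply Subtype.ext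
    change algebraMap R S (Φ ^ b) * (algebraMap R S Φ ^ a * s) =
      algebraMap R S (Φ ^ a) * (algebraMap R S Φ ^ b * s)
    rw [map_pow, map_pow]
    ring
  let f : S → Ω := fun s => ψ₀ ⟨_, hn s⟩ / φ Φ ^ n s
  have hf : ∀ (s : S) (a : ℕ) (ha : IsIntegral R (algebraMap R S Φ ^ a * s)),
      f s * φ Φ ^ a = ψ₀ ⟨_, ha⟩ := by
    intro s a ha
    have := key s a (n s) ha (hn s)
    change ψ₀ ⟨_, hn s⟩ / φ Φ ^ n s * φ Φ ^ a = _
    rw [div_mul_eq_mul_div, div_eq_iff (pow_ne_zero _ hφ), mul_comm, ← this, mul_comm]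
  have hf0 : ∀ (s : S) (a : ℕ) (ha : IsIntegral R (algebraMap R S Φ ^ a * s)),
      f s = ψ₀ ⟨_, ha⟩ / φ Φ ^ a := by
    intro s a ha
    rw [eq_div_iff (pow_ne_zero _ hφ), hf s a ha]
  have hfalg : ∀ a : R, f (algebraMap R S a) = φ a := by
    intro a
    have h1 : IsIntegral R (algebraMap R S Φ ^ 0 * algebraMap R S a) := by
      rw [pow_zero, one_mul]
      exact isIntegral_algebraMap
    have h2 := hf (algebraMap R S a) 0 h1
    rw [pow_zero (φ Φ), mul_one] at h2
    rw [h2, ← hψ₀']
    congr 1
    apply Subtype.ext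
    change algebraMap R S Φ ^ 0 * algebraMap R S a = algebraMap R S a
    rw [pow_zero, one_mul]
  have hfmul : ∀ a b : S, f (a * b) = f a * f b := by
    intro a b
    have h1 : IsIntegral R (algebraMap R S Φ ^ (n a + n b) * (a * b)) := by
      have : algebraMap R S Φ ^ (n a + n b) * (a * b) =
          (algebraMap R S Φ ^ n a * a) * (algebraMap R S Φ ^ n b * b) := by ring
      rw [this]
      exact (hn a).mul (hn b)
    rw [hf0 (a * b) _ h1, hf0 a _ (hn a), hf0 b _ (hn b), div_mul_div_comm, ← pow_add,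
      ← map_mul ψ₀]
    congr 2
    apply Subtype.ext
    change algebraMap R S Φ ^ (n a + n b) * (a * b) =
      (algebraMap R S Φ ^ n a * a) * (algebraMap R S Φ ^ n b * b)
    ring
  have hfadd : ∀ a b : S, f (a + b) = f a + f b := by
    intro a b
    have ha : IsIntegral R (algebraMap R S Φ ^ (n a + n b) * a) := by
      have : algebraMap R S Φ ^ (n a + n b) * a =
          algebraMap R S (Φ ^ n b) * (algebraMap R S Φ ^ n a * a) := by
        rw [map_pow]; ring
      rw [this]
      exact isIntegral_algebraMap.mul (hn a)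
    have hb : IsIntegral R (algebraMap R S Φ ^ (n a + n b) * b) := by
      have : algebraMap R S Φ ^ (n a + n b) * b =
          algebraMap R S (Φ ^ n a) * (algebraMap R S Φ ^ n b * b) := by
        rw [map_pow]; ring
      rw [this]
      exact isIntegral_algebraMap.mul (hn b)
    have hab : IsIntegral R (algebraMap R S Φ ^ (n a + n b) * (a + b)) := by
      rw [mul_add]
      exact ha.add hb
    rw [hf0 (a + b) _ hab, hf0 a _ ha, hf0 b _ hb, ← add_div, ← map_add ψ₀]
    congr 2
    apply Subtype.ext
    change algebraMap R S Φ ^ (n a + n b) * (a + b) =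
      algebraMap R S Φ ^ (n a + n b) * a + algebraMap R S Φ ^ (n a + n b) * b
    rw [mul_add]
  let ψ : S →+* Ω :=
    { toFun := f
      map_one' := by rw [← map_one (algebraMap R S), hfalg, map_one]
      map_mul' := hfmul
      map_zero' := by rw [← map_zero (algebraMap R S), hfalg, map_zero]
      map_add' := hfadd }
  refine ⟨ψ, ?_, ?_⟩
  · ext a
    exact hfalg a
  · intro h0
    have h1 : ψ (h * g) = φ r := by
      rw [← hg]
      exact hfalg r
    rw [map_mul, h0, zero_mul] at h1
    apply hφ
    rw [hΦ, map_mul, ← h1, zero_mul]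

/-- The chain rule. -/
theorem chain {k σ : Type*} [Field k] [Fintype σ] [DecidableEq σ] (s : σ → MvPolynomial σ k)
    (j : σ) (P : MvPolynomial σ k) :
    pderiv j (aeval s P) = ∑ i, aeval s (pderiv i P) * pderiv j (s i) := by
  induction P using MvPolynomial.induction_on with
  | C a => simp
  | add p q hp hq => simp only [map_add, hp, hq, add_mul, Finset.sum_add_distrib]
  | mul_X p k hp =>
    simp only [map_mul, aeval_X, pderiv_mul, hp, map_add, pderiv_X, add_mul, Finset.sum_add_distrib]
    congr 1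
    · rw [Finset.sum_mul]
      exact Finset.sum_congr rfl fun i _ => by ring
    · rw [Finset.sum_eq_single k]
      · simp
      · intro b _ hb
        rw [Pi.single_eq_of_ne' hb]
        simp
      · simp

theorem totalDegree_pderiv_lt {k σ : Type*} [Field k] [DecidableEq σ] (i : σ)
    (P : MvPolynomial σ k) (h : pderiv i P ≠ 0) :
    (pderiv i P).totalDegree < P.totalDegree := by
  have key : ∀ m ∈ (pderiv i P).support, (m.sum fun _ e => e) < P.totalDegree := by
    intro m hm
    rw [mem_support_iff, coeff_pderiv] at hm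
    have h1 : m + Finsupp.single i 1 ∈ P.support := by
      rw [mem_support_iff]
      intro h0
      apply hm
      rw [h0, zero_mul]
    have h2 := le_totalDegree h1
    rw [Finsupp.sum_add_index' (fun _ => rfl) (fun _ _ _ => rfl), Finsupp.sum_single_index rfl] at h2
    omega
  have hne : (pderiv i P).support.Nonempty := support_nonempty.2 h
  obtain ⟨m0, hm0⟩ := hne
  have hpos : ⊥ < P.totalDegree := lt_of_le_of_lt (Nat.zero_le _) (key m0 hm0)
  unfold totalDegree
  exact (Finset.sup_lt_iff hpos).2 key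

theorem eq_C_of_pderiv {k σ : Type*} [Field k] [CharZero k] [DecidableEq σ]
    (P : MvPolynomial σ k) (h : ∀ i, pderiv i P = 0) : P = C (coeff 0 P) := by
  ext m
  rw [coeff_C]
  split_ifs with hm
  · rw [← hm]
  · obtain ⟨i, hi⟩ : ∃ i, m i ≠ 0 := by
      by_contra h0
      push Not at h0
      exact hm (Finsupp.ext fun a => (h0 a).symm)
    have h1 := congrArg (coeff (m - Finsupp.single i 1)) (h i)
    rw [coeff_pderiv, coeff_zero, tsub_add_cancel_of_le (by
      rw [Finsupp.single_le_iff]; omega)] at h1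
    rcases mul_eq_zero.1 h1 with h2 | h2
    · exact h2
    · exfalso
      have h3 : (((m - Finsupp.single i 1 : σ →₀ ℕ) i + 1 : ℕ) : k) = 0 := by
        push_cast
        exact h2
      exact Nat.succ_ne_zero _ (Nat.cast_eq_zero.mp h3)

/-- The Jacobian criterion. -/
theorem algebraicIndependent_of_det {k σ : Type*} [Field k] [CharZero k] [Fintype σ]
    [DecidableEq σ] (s : σ → MvPolynomial σ k)
    (h : (Matrix.of fun i j => pderiv j (s i)).det ≠ 0) : AlgebraicIndependent k s := by
  have main : ∀ d : ℕ, ∀ P : MvPolynomial σ k, P.totalDegree ≤ d → aeval s P = 0 → P = 0 := by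
    intro d
    induction d with
    | zero =>
      intro P hP h0
      have h1 := totalDegree_eq_zero_iff_eq_C.1 (Nat.le_zero.1 hP)
      rw [h1] at h0 ⊢
      rw [← algebraMap_eq, AlgHom.commutes, algebraMap_eq, C_eq_zero] at h0
      rw [h0, C_0]
    | succ d ih =>
      intro P hP h0
      have hv : Matrix.vecMul (fun i => aeval s (pderiv i P))
          (Matrix.of fun i j => pderiv j (s i)) = 0 := by
        funext j
        have h1 := chain s j P
        rw [h0, map_zero] at h1
        rw [Matrix.vecMul, dotProduct, Pi.zero_apply, h1]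
        rfl
      have hz := Matrix.eq_zero_of_vecMul_eq_zero h hv
      have hall : ∀ i, pderiv i P = 0 := by
        intro i
        by_contra hne
        have := totalDegree_pderiv_lt i P hne
        exact hne (ih _ (by omega) (congrFun hz i))
      have hC := eq_C_of_pderiv P hall
      rw [hC] at h0 ⊢
      rw [← algebraMap_eq, AlgHom.commutes, algebraMap_eq, C_eq_zero] at h0
      rw [h0, C_0]
  rw [algebraicIndependent_iff]
  intro P hP
  exact main _ P le_rfl hP

/-- The general point is in the image of a dominant polynomial map, and has a preimage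
outside the zeros of a given polynomial. -/
theorem exists_general {k σ : Type*} [Field k] [Fintype σ] (s : σ → MvPolynomial σ k)
    (hs : AlgebraicIndependent k s) (h : MvPolynomial σ k) (hh : h ≠ 0) :
    ∃ Φ : MvPolynomial σ k, Φ ≠ 0 ∧ ∀ {Ω : Type*} [Field Ω] [IsAlgClosed Ω] [Algebra k Ω]
      (y : σ → Ω), aeval y Φ ≠ 0 → ∃ u : σ → Ω, (∀ d, aeval u (s d) = y d) ∧ aeval u h ≠ 0 := by
  classical
  have htr : Algebra.trdeg k (MvPolynomial σ k) = Cardinal.lift.{_} (Cardinal.mk σ) :=
    MvPolynomial.trdeg_of_isDomain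
  have hbasis : IsTranscendenceBasis k s :=
    hs.isTranscendenceBasis_of_lift_trdeg_le_of_finite (by
      rw [htr]
      simp)
  have halg : Algebra.IsAlgebraic (Algebra.adjoin k (Set.range s)) (MvPolynomial σ k) :=
    hbasis.isAlgebraic
  obtain ⟨Φ', hΦ', hext⟩ := ext_algebraic (R := Algebra.adjoin k (Set.range s))
    (S := MvPolynomial σ k) Subtype.val_injective (Finset.univ.image X) (by
      rw [eq_top_iff]
      intro P _
      induction P using MvPolynomial.induction_on with
      | C a =>
        exact Subalgebra.algebraMap_mem _ (algebraMap k (Algebra.adjoin k (Set.range s)) a)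
      | add p q hp hq => exact add_mem (hp Algebra.mem_top) (hq Algebra.mem_top)
      | mul_X p i hp =>
        refine mul_mem (hp Algebra.mem_top) (Algebra.subset_adjoin ?_)
        rw [Finset.mem_coe, Finset.mem_image]
        exact ⟨i, Finset.mem_univ _, rfl⟩) hh
  refine ⟨hs.aevalEquiv.symm Φ', ?_, ?_⟩
  · intro h0
    apply hΦ'
    rw [← map_zero hs.aevalEquiv.symm] at h0
    exact hs.aevalEquiv.symm.injective h0
  · intro Ω _ _ _ y hy
    let φ : Algebra.adjoin k (Set.range s) →ₐ[k] Ω :=
      (aeval y).comp (hs.aevalEquiv.symm : _ →ₐ[k] MvPolynomial σ k)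
    obtain ⟨ψ, hψ, hψh⟩ := hext φ.toRingHom hy
    have hcomm : ∀ a : Algebra.adjoin k (Set.range s), ψ (a : MvPolynomial σ k) = φ a := fun a =>
      congrArg (fun f => f a) hψ
    let ψ' : MvPolynomial σ k →ₐ[k] Ω :=
      { ψ with
        commutes' := fun c => by
          have := hcomm (algebraMap k _ c)
          rw [AlgHom.commutes] at this
          exact this }
    have hev : ∀ P, aeval (fun i => ψ' (X i)) P = ψ' P := by
      intro P
      have : aeval (fun i => ψ' (X i)) = ψ' := by
        apply MvPolynomial.algHom_ext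
        intro i
        rw [aeval_X]
      rw [this]
    refine ⟨fun i => ψ' (X i), fun d => ?_, ?_⟩
    · rw [hev]
      have h1 : ((hs.aevalEquiv (X d) : Algebra.adjoin k (Set.range s)) : MvPolynomial σ k) =
          s d := by
        have h3 := AlgebraicIndependent.algebraMap_aevalEquiv hs (X d)
        rw [aeval_X] at h3
        exact h3
      have h2 := hcomm (hs.aevalEquiv (X d))
      rw [h1] at h2
      change ψ (s d) = y d
      rw [h2]
      change aeval y (hs.aevalEquiv.symm (hs.aevalEquiv (X d))) = y d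
      rw [AlgEquiv.symm_apply_apply, aeval_X]
    · rw [hev]
      exact hψh

end Pool.Agent.L0h9.Gen
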