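import Pool.Agent.L0h9.Gen.Aff
import Pool.Agent.L0h9.Gen.Dom

/-! The incidence variety of polynomials with a double point in a fibre. -/

set_option autoImplicit false

namespace Pool.Agent.L0h9.Gen

open MvPolynomial

/-- The conditions on the set of exponents. The variables `Sum.inl j` are `t_j`, the variables
`Sum.inr i` are `x_i`. -/
structure Admissible {m k : ℕ} (E : Finset ((Fin (m + 1) ⊕ Fin (k + 2)) →₀ ℕ)) : Prop where
  one : 0 ∈ E
  lin : ∀ i, Finsupp.single (Sum.inr i) 1 ∈ E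
  sq : ∀ i, Finsupp.single (Sum.inr i) 2 ∈ E
  cube : Finsupp.single (Sum.inr 0) 3 ∈ E
  linT : ∀ j, Finsupp.single (Sum.inl j) 1 ∈ E
  degT : ∀ d ∈ E, ∀ j, d (Sum.inl j) ≤ 4
  degX : ∀ d ∈ E, (∀ j, j ≠ 0 → d (Sum.inl j) = 0) → ∑ i, d (Sum.inr i) ≤ 6

variable {m k : ℕ} {E : Finset ((Fin (m + 1) ⊕ Fin (k + 2)) →₀ ℕ)}

/-- The exponents `1`, `x_i`, `x_0²`. -/
def Special (d : (Fin (m + 1) ⊕ Fin (k + 2)) →₀ ℕ) : Prop :=
  d = 0 ∨ (∃ i, d = Finsupp.single (Sum.inr i) 1) ∨ d = Finsupp.single (Sum.inr 0) 2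

section ring

variable {A : Type*} [CommRing A] [Algebra ℚ A]

open Classical in
/-- The part of the polynomial with the free coefficients. -/
noncomputable def gpart (u : E → A) : MvPolynomial (Fin (m + 1) ⊕ Fin (k + 2)) A :=
  ∑ d : E, if Special d.1 then 0 else monomial d.1 (u d)

/-- The point. -/
noncomputable def gpt (hE : Admissible E) (u : E → A) : Fin (m + 1) ⊕ Fin (k + 2) → A :=
  Sum.elim (fun j => if j = 0 then u ⟨0, hE.one⟩ else 0)
    (fun i => u ⟨Finsupp.single (Sum.inr i) 1, hE.lin i⟩)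

/-- The direction. -/
noncomputable def gmu (hE : Admissible E) (u : E → A) : A := u ⟨Finsupp.single (Sum.inr 0) 2, hE.sq 0⟩

/-- The coefficient of `x_0²`. -/
noncomputable def c2 (hE : Admissible E) (u : E → A) : A :=
  -(algebraMap ℚ A (1 / 2) * eval (gpt hE u) (dir (gmu hE u) (dir (gmu hE u) (gpart u))))

/-- The coefficient of `x_i`. -/
noncomputable def c1 (hE : Admissible E) (u : E → A) (i : Fin (k + 2)) : A :=
  -eval (gpt hE u) (pderiv (Sum.inr i) (gpart u)) -
    if i = 0 then 2 * c2 hE u * gpt hE u (Sum.inr 0) else 0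

/-- The constant coefficient. -/
noncomputable def c0 (hE : Admissible E) (u : E → A) : A :=
  -eval (gpt hE u) (gpart u) - ∑ i, c1 hE u i * gpt hE u (Sum.inr i) -
    c2 hE u * gpt hE u (Sum.inr 0) ^ 2

/-- The polynomial. -/
noncomputable def gen (hE : Admissible E) (u : E → A) :
    MvPolynomial (Fin (m + 1) ⊕ Fin (k + 2)) A :=
  gpart u + C (c2 hE u) * X (Sum.inr 0) ^ 2 + ∑ i, C (c1 hE u i) * X (Sum.inr i) + C (c0 hE u)

omit [Algebra ℚ A] in
open Classical in
theorem coeff_gpart (u : E → A) (d : (Fin (m + 1) ⊕ Fin (k + 2)) →₀ ℕ) :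
    coeff d (gpart u) = if h : d ∈ E then (if Special d then 0 else u ⟨d, h⟩) else 0 := by
  rw [gpart, coeff_sum]
  split_ifs with h1 h2
  · refine Finset.sum_eq_zero fun e _ => ?_
    split_ifs with h3
    · exact coeff_zero _
    · rw [coeff_monomial, if_neg]
      intro h4
      exact h3 (h4 ▸ h2)
  · rw [Finset.sum_eq_single ⟨d, h1⟩]
    · rw [if_neg h2, coeff_monomial, if_pos rfl]
    · intro e _ he
      split_ifs with h3
      · exact coeff_zero _
      · rw [coeff_monomial, if_neg]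
        intro h4
        exact he (Subtype.ext h4)
    · exact fun h => (h (Finset.mem_univ _)).elim
  · refine Finset.sum_eq_zero fun e _ => ?_
    split_ifs with h3
    · exact coeff_zero _
    · rw [coeff_monomial, if_neg]
      intro h4
      exact h1 (h4 ▸ e.2)

omit [Algebra ℚ A] in
theorem gpart_eq (H : MvPolynomial (Fin (m + 1) ⊕ Fin (k + 2)) A)
    (hH : ∀ d ∈ H.support, d ∈ E ∧ ¬Special d) (u : E → A)
    (hu : ∀ d : E, ¬Special d.1 → u d = coeff d.1 H) : gpart u = H := by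
  classical
  ext d
  rw [coeff_gpart]
  by_cases hd : d ∈ H.support
  · obtain ⟨h1, h2⟩ := hH d hd
    rw [dif_pos h1, if_neg h2, hu _ h2]
  · rw [notMem_support_iff.mp hd]
    split_ifs with h1 h2
    · rfl
    · rw [hu _ h2]
      exact notMem_support_iff.mp hd
    · rfl

omit [Algebra ℚ A] in
theorem coeff_X_sq {α : Type*} [DecidableEq α] (v : α) (d : α →₀ ℕ) :
    coeff d (X v ^ 2 : MvPolynomial α A) = if Finsupp.single v 2 = d then 1 else 0 := by
  rw [coeff_X_pow]

/-- Coefficients of the polynomial. -/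
theorem coeff_gen_free (hE : Admissible E) (u : E → A) (d : E) (hd : ¬Special d.1) :
    coeff d.1 (gen hE u) = u d := by
  classical
  have h0 : d.1 ≠ 0 := fun h => hd (Or.inl h)
  have h1 : ∀ i, d.1 ≠ Finsupp.single (Sum.inr i) 1 := fun i h => hd (Or.inr (Or.inl ⟨i, h⟩))
  have h2 : d.1 ≠ Finsupp.single (Sum.inr 0) 2 := fun h => hd (Or.inr (Or.inr h))
  rw [gen, coeff_add, coeff_add, coeff_add, coeff_gpart, dif_pos d.2, if_neg hd, coeff_C_mul,
    coeff_X_sq, if_neg (Ne.symm h2), mul_zero, add_zero, coeff_C, if_neg (Ne.symm h0), add_zero,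
    coeff_sum]
  have : ∑ i, coeff d.1 (C (c1 hE u i) * X (Sum.inr i)) = 0 := by
    refine Finset.sum_eq_zero fun i _ => ?_
    rw [coeff_C_mul, coeff_X, if_neg (Ne.symm (h1 i)), mul_zero]
  rw [this, add_zero]

theorem single_inr_ne_zero {i : Fin (k + 2)} {n : ℕ} (hn : n ≠ 0) :
    (Finsupp.single (Sum.inr i) n : (Fin (m + 1) ⊕ Fin (k + 2)) →₀ ℕ) ≠ 0 := by
  rw [Ne, Finsupp.single_eq_zero]
  exact hn

theorem single_one_ne_two {v w : Fin (m + 1) ⊕ Fin (k + 2)} :
    (Finsupp.single v 1 : (Fin (m + 1) ⊕ Fin (k + 2)) →₀ ℕ) ≠ Finsupp.single w 2 := by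
  intro h
  rw [Finsupp.single_eq_single_iff] at h
  omega

theorem coeff_gen_sq (hE : Admissible E) (u : E → A) :
    coeff (Finsupp.single (Sum.inr 0) 2) (gen hE u) = c2 hE u := by
  classical
  rw [gen, coeff_add, coeff_add, coeff_add, coeff_gpart, dif_pos (hE.sq 0),
    if_pos (show Special (Finsupp.single (Sum.inr 0) 2) from Or.inr (Or.inr rfl)), coeff_C_mul, coeff_X_sq, if_pos rfl, mul_one, zero_add,
    coeff_C, if_neg (single_inr_ne_zero two_ne_zero).symm, add_zero, coeff_sum]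
  have : ∑ i, coeff (Finsupp.single (Sum.inr 0) 2) (C (c1 hE u i) * X (Sum.inr i) :
      MvPolynomial (Fin (m + 1) ⊕ Fin (k + 2)) A) = 0 := by
    refine Finset.sum_eq_zero fun i _ => ?_
    rw [coeff_C_mul, coeff_X, if_neg single_one_ne_two, mul_zero]
  rw [this, add_zero]

theorem coeff_gen_lin (hE : Admissible E) (u : E → A) (i : Fin (k + 2)) :
    coeff (Finsupp.single (Sum.inr i) 1) (gen hE u) = c1 hE u i := by
  classical
  rw [gen, coeff_add, coeff_add, coeff_add, coeff_gpart, dif_pos (hE.lin i),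
    if_pos (show Special (Finsupp.single (Sum.inr i) 1) from Or.inr (Or.inl ⟨i, rfl⟩)), coeff_C_mul, coeff_X_sq, if_neg single_one_ne_two.symm,
    mul_zero, zero_add, zero_add,
    coeff_C, if_neg (single_inr_ne_zero one_ne_zero).symm, add_zero, coeff_sum,
    Finset.sum_eq_single i]
  · rw [coeff_C_mul, coeff_X, if_pos rfl, mul_one]
  · intro j _ hj
    rw [coeff_C_mul, coeff_X, if_neg, mul_zero]
    intro h
    rw [Finsupp.single_eq_single_iff] at h
    rcases h with h | h
    · exact hj (Sum.inr_injective h.1)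
    · omega
  · exact fun h => (h (Finset.mem_univ _)).elim

theorem coeff_gen_one (hE : Admissible E) (u : E → A) :
    coeff 0 (gen hE u) = c0 hE u := by
  classical
  rw [gen, coeff_add, coeff_add, coeff_add, coeff_gpart, dif_pos hE.one,
    if_pos (show Special 0 from Or.inl rfl), coeff_C_mul, coeff_X_sq, if_neg (single_inr_ne_zero two_ne_zero),
    mul_zero, zero_add, zero_add, coeff_C, if_pos rfl, coeff_sum]
  have : ∑ i, coeff 0 (C (c1 hE u i) * X (Sum.inr i) :
      MvPolynomial (Fin (m + 1) ⊕ Fin (k + 2)) A) = 0 := by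
    refine Finset.sum_eq_zero fun i _ => ?_
    rw [coeff_C_mul, coeff_X, if_neg (single_inr_ne_zero one_ne_zero), mul_zero]
  rw [this, zero_add]

theorem coeff_gen_out (hE : Admissible E) (u : E → A) (d : (Fin (m + 1) ⊕ Fin (k + 2)) →₀ ℕ)
    (hd : d ∉ E) : coeff d (gen hE u) = 0 := by
  classical
  have h0 : d ≠ 0 := fun h => hd (h ▸ hE.one)
  have h1 : ∀ i, d ≠ Finsupp.single (Sum.inr i) 1 := fun i h => hd (h ▸ hE.lin i)
  have h2 : d ≠ Finsupp.single (Sum.inr 0) 2 := fun h => hd (h ▸ hE.sq 0)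
  rw [gen, coeff_add, coeff_add, coeff_add, coeff_gpart, dif_neg hd, coeff_C_mul,
    coeff_X_sq, if_neg (Ne.symm h2), mul_zero, add_zero, coeff_C, if_neg (Ne.symm h0), add_zero,
    coeff_sum, zero_add]
  refine Finset.sum_eq_zero fun i _ => ?_
  rw [coeff_C_mul, coeff_X, if_neg (Ne.symm (h1 i)), mul_zero]

end ring

section map

variable {A B : Type*} [CommRing A] [Algebra ℚ A] [CommRing B] [Algebra ℚ B] (φ : A →ₐ[ℚ] B)

theorem map_gpart (u : E → A) : map (φ : A →+* B) (gpart u) = gpart (fun d => φ (u d)) := by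
  classical
  rw [gpart, gpart, map_sum]
  refine Finset.sum_congr rfl fun d _ => ?_
  split_ifs
  · rw [map_zero]
  · rw [map_monomial]
    rfl

theorem map_dir (μ : A) (F : MvPolynomial (Fin (m + 1) ⊕ Fin (k + 2)) A) :
    map (φ : A →+* B) (dir μ F) = dir (φ μ) (map (φ : A →+* B) F) := by
  rw [dir, dir, map_add, map_mul, map_C, pderiv_map, pderiv_map]
  rfl

theorem map_gpt (hE : Admissible E) (u : E → A) (v : Fin (m + 1) ⊕ Fin (k + 2)) :
    φ (gpt hE u v) = gpt hE (fun d => φ (u d)) v := by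
  rcases v with j | i
  · rw [gpt, gpt, Sum.elim_inl, Sum.elim_inl]
    split_ifs
    · rfl
    · exact map_zero φ
  · rfl

theorem map_eval' (hE : Admissible E) (u : E → A)
    (F : MvPolynomial (Fin (m + 1) ⊕ Fin (k + 2)) A) :
    φ (eval (gpt hE u) F) = eval (gpt hE fun d => φ (u d)) (map (φ : A →+* B) F) := by
  rw [eval_map]
  have h := eval₂_comp_left (φ : A →+* B) (RingHom.id A) (gpt hE u) F
  rw [RingHom.comp_id] at h
  have h2 : (φ : A →+* B) ∘ gpt hE u = gpt hE fun d => φ (u d) := by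
    funext v
    exact map_gpt φ hE u v
  rw [h2] at h
  exact h

theorem map_c2 (hE : Admissible E) (u : E → A) : φ (c2 hE u) = c2 hE fun d => φ (u d) := by
  rw [c2, c2, map_neg, map_mul, AlgHom.commutes, map_eval', map_dir, map_dir, map_gpart]
  rfl

theorem map_c1 (hE : Admissible E) (u : E → A) (i : Fin (k + 2)) :
    φ (c1 hE u i) = c1 hE (fun d => φ (u d)) i := by
  rw [c1, c1, map_sub, map_neg, map_eval', ← pderiv_map, map_gpart]
  congr 1
  split_ifs
  · rw [map_mul, map_mul, map_c2, map_gpt, map_ofNat]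
  · rw [map_zero]

theorem map_c0 (hE : Admissible E) (u : E → A) : φ (c0 hE u) = c0 hE fun d => φ (u d) := by
  rw [c0, c0, map_sub, map_sub, map_neg, map_eval', map_gpart, map_sum, map_mul, map_pow, map_c2,
    map_gpt]
  congr 2
  refine Finset.sum_congr rfl fun i _ => ?_
  rw [map_mul, map_c1, map_gpt]

theorem map_gen (hE : Admissible E) (u : E → A) :
    map (φ : A →+* B) (gen hE u) = gen hE fun d => φ (u d) := by
  rw [gen, gen, map_add, map_add, map_add, map_gpart, map_mul, map_pow, map_C, map_X, map_C,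
    map_sum]
  have h2 : (φ : A →+* B) (c2 hE u) = c2 hE fun d => φ (u d) := map_c2 φ hE u
  have h0 : (φ : A →+* B) (c0 hE u) = c0 hE fun d => φ (u d) := map_c0 φ hE u
  rw [h2, h0]
  congr 2
  refine Finset.sum_congr rfl fun i _ => ?_
  have h1 : (φ : A →+* B) (c1 hE u i) = c1 hE (fun d => φ (u d)) i := map_c1 φ hE u i
  rw [map_mul, map_C, map_X, h1]

end map

end Pool.Agent.L0h9.Gen
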