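import Pool.Agent.L0h9.Gen.Fam

/-! The incidence variety dominates the family. -/

set_option autoImplicit false

namespace Pool.Agent.L0h9.Gen

open MvPolynomial TrivSqZeroExt

/-- The derivative through the dual numbers. -/
theorem aeval_dual {σ : Type*} [Fintype σ] [DecidableEq σ] (u v : σ → ℚ) (P : MvPolynomial σ ℚ) :
    aeval (fun i => (inl (u i) + inr (v i) : DualNumber ℚ)) P =
      inl (eval u P) + inr (∑ j, eval u (pderiv j P) * v j) := by
  induction P using MvPolynomial.induction_on with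
  | C c =>
    rw [algHom_C, eval_C]
    simp
    rfl
  | add p q hp hq =>
    rw [map_add, hp, hq, map_add, inl_add]
    have : ∑ j, eval u (pderiv j (p + q)) * v j = ∑ j, eval u (pderiv j p) * v j +
        ∑ j, eval u (pderiv j q) * v j := by
      rw [← Finset.sum_add_distrib]
      refine Finset.sum_congr rfl fun j _ => ?_
      rw [map_add, map_add, add_mul]
    rw [this, inr_add]
    abel
  | mul_X p n hp =>
    rw [map_mul, hp, aeval_X, map_mul, eval_X]
    have : ∑ j, eval u (pderiv j (p * X n)) * v j =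
        eval u p * v n + (∑ j, eval u (pderiv j p) * v j) * u n := by
      have h1 : ∀ j, eval u (pderiv j (p * X n)) * v j =
          (if j = n then eval u p * v n else 0) + eval u (pderiv j p) * v j * u n := by
        intro j
        rw [Derivation.leibniz, smul_eq_mul, smul_eq_mul, map_add, map_mul, map_mul, eval_X,
          pderiv_X]
        by_cases hj : j = n
        · rw [hj, Pi.single_eq_same, map_one, if_pos rfl]
          ring
        · rw [Pi.single_eq_of_ne (Ne.symm hj), map_zero, if_neg hj]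
          ring
      rw [Finset.sum_congr rfl fun j _ => h1 j, Finset.sum_add_distrib, Finset.sum_mul,
        Finset.sum_ite_eq' Finset.univ n, if_pos (Finset.mem_univ _)]
    rw [this]
    apply TrivSqZeroExt.ext
    · simp
    · simp

theorem fst_two : fst (2 : DualNumber ℚ) ≠ 0 := by
  have h : fst (1 + 1 : DualNumber ℚ) = 2 := by
    rw [fst_add, fst_one]
    norm_num
  rw [one_add_one_eq_two] at h
  rw [h]
  exact two_ne_zero

theorem det_ne_zero_of_dual {σ : Type*} [Fintype σ] [DecidableEq σ] (s : σ → MvPolynomial σ ℚ)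
    (u : σ → ℚ)
    (h : ∀ v : σ → ℚ, (∀ d, aeval (fun i => (inl (u i) + inr (v i) : DualNumber ℚ)) (s d) =
      inl (eval u (s d))) → v = 0) : (Matrix.of fun i j => pderiv j (s i)).det ≠ 0 := by
  intro h0
  have h1 : ((Matrix.of fun i j => pderiv j (s i)).map (eval u)).det = 0 := by
    rw [← RingHom.mapMatrix_apply, ← RingHom.map_det, h0, map_zero]
  rw [← Matrix.exists_mulVec_eq_zero_iff] at h1
  obtain ⟨v, hv0, hv⟩ := h1
  apply hv0
  apply h
  intro d
  rw [aeval_dual]
  have h2 := congrFun hv d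
  rw [Matrix.mulVec, dotProduct, Pi.zero_apply] at h2
  have h3 : ∑ j, eval u (pderiv j (s d)) * v j = 0 := by
    rw [← h2]
    rfl
  rw [h3]
  simp

variable {m k : ℕ} {E : Finset ((Fin (m + 1) ⊕ Fin (k + 2)) →₀ ℕ)}

/-- The components of the projection of the incidence variety. -/
noncomputable def proj (hE : Admissible E) (d : E) : MvPolynomial E ℚ :=
  coeff d.1 (gen hE (X : E → MvPolynomial E ℚ))

theorem aeval_proj {A : Type*} [CommRing A] [Algebra ℚ A] (hE : Admissible E) (u : E → A) (d : E) :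
    aeval u (proj hE d) = coeff d.1 (gen hE u) := by
  rw [proj]
  have h := map_gen (aeval u : MvPolynomial E ℚ →ₐ[ℚ] A) hE X
  have h2 : (fun d : E => (aeval u : MvPolynomial E ℚ →ₐ[ℚ] A) (X d)) = u := by
    funext d
    rw [aeval_X]
  rw [h2] at h
  rw [← h, coeff_map]
  rfl

/-- The special polynomial. -/
noncomputable def G0 (A : Type*) [CommRing A] (m k : ℕ) :
    MvPolynomial (Fin (m + 1) ⊕ Fin (k + 2)) A :=
  X (Sum.inl 0) + ∑ i : Fin (k + 1), X (Sum.inr i.succ) ^ 2

theorem not_special_inl (j : Fin (m + 1)) :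
    ¬Special (Finsupp.single (Sum.inl j) 1 : (Fin (m + 1) ⊕ Fin (k + 2)) →₀ ℕ) := by
  rintro (h | ⟨i, h⟩ | h)
  · rw [Finsupp.single_eq_zero] at h
    exact one_ne_zero h
  · rw [Finsupp.single_eq_single_iff] at h
    rcases h with h | h
    · cases h.1
    · exact one_ne_zero h.1
  · exact single_one_ne_two h

theorem not_special_sq {i : Fin (k + 2)} (hi : i ≠ 0) :
    ¬Special (Finsupp.single (Sum.inr i) 2 : (Fin (m + 1) ⊕ Fin (k + 2)) →₀ ℕ) := by
  rintro (h | ⟨i, h⟩ | h)
  · rw [Finsupp.single_eq_zero] at h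
    exact two_ne_zero h
  · exact single_one_ne_two h.symm
  · rw [Finsupp.single_eq_single_iff] at h
    rcases h with h | h
    · exact hi (Sum.inr_injective h.1)
    · exact two_ne_zero h.1

theorem not_special_cube :
    ¬Special (Finsupp.single (Sum.inr 0) 3 : (Fin (m + 1) ⊕ Fin (k + 2)) →₀ ℕ) := by
  rintro (h | ⟨i, h⟩ | h)
  · rw [Finsupp.single_eq_zero] at h
    exact three_ne_zero h
  · rw [Finsupp.single_eq_single_iff] at h
    omega
  · rw [Finsupp.single_eq_single_iff] at h
    omega

theorem G0_support (A : Type*) [CommRing A] (hE : Admissible E) :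
    ∀ d ∈ (G0 A m k).support, d ∈ E ∧ ¬Special d := by
  classical
  intro d hd
  rw [mem_support_iff, G0, coeff_add, coeff_X, coeff_sum] at hd
  by_cases h1 : Finsupp.single (Sum.inl 0) 1 = d
  · rw [← h1]
    exact ⟨hE.linT 0, not_special_inl 0⟩
  · rw [if_neg h1, zero_add] at hd
    obtain ⟨i, -, hi⟩ := Finset.exists_ne_zero_of_sum_ne_zero hd
    rw [coeff_X_sq] at hi
    have h2 : Finsupp.single (Sum.inr i.succ) 2 = d := by
      by_contra hne
      rw [if_neg hne] at hi
      exact hi rfl
    rw [← h2]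
    exact ⟨hE.sq _, not_special_sq (Fin.succ_ne_zero i)⟩

theorem map_G0 {A B : Type*} [CommRing A] [CommRing B] (φ : A →+* B) :
    map φ (G0 A m k) = G0 B m k := by
  rw [G0, G0, map_add, map_X, map_sum]
  congr 1
  refine Finset.sum_congr rfl fun i _ => ?_
  rw [map_pow, map_X]

theorem pderiv_G0_inr (A : Type*) [CommRing A] (i : Fin (k + 2)) :
    pderiv (Sum.inr i) (G0 A m k) = if i = 0 then 0 else 2 * X (Sum.inr i) := by
  classical
  rw [G0, map_add, pderiv_X, Pi.single_eq_of_ne (fun h => by cases h), zero_add, map_sum]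
  split_ifs with hi
  · refine Finset.sum_eq_zero fun j _ => ?_
    rw [pderiv_pow, pderiv_X, Pi.single_eq_of_ne, mul_zero]
    rw [hi]
    exact fun h => Fin.succ_ne_zero j (Sum.inr_injective h)
  · obtain ⟨i', rfl⟩ := Fin.exists_succ_eq.mpr hi
    rw [Finset.sum_eq_single i']
    · rw [pderiv_pow, pderiv_X, Pi.single_eq_same]
      norm_num
    · intro j _ hj
      rw [pderiv_pow, pderiv_X, Pi.single_eq_of_ne, mul_zero]
      exact fun h => hj (Fin.succ_injective _ (Sum.inr_injective h))
    · exact fun h => (h (Finset.mem_univ _)).elim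

theorem dir_dir_G0 (A : Type*) [CommRing A] (μ : A) :
    dir μ (dir μ (G0 A m k)) = C (2 * μ ^ 2) := by
  classical
  have h1 : dir μ (G0 A m k) = C (2 * μ) * X (xl (m + 1) k) := by
    rw [dir, x0, xl, pderiv_G0_inr, if_pos rfl, zero_add, pderiv_G0_inr,
      if_neg Fin.last_pos.ne', C_mul]
    rw [show (C 2 : MvPolynomial (Fin (m + 1) ⊕ Fin (k + 2)) A) = 2 from map_ofNat C 2]
    ring
  rw [h1, dir, Derivation.leibniz, Derivation.leibniz, pderiv_C, pderiv_C, pderiv_X, pderiv_X,
    Pi.single_eq_of_ne xl_ne_x0, Pi.single_eq_same]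
  simp only [smul_eq_mul, mul_zero, add_zero, zero_add, mul_one]
  rw [← C_mul]
  congr 1
  ring

theorem algebraicIndependent_proj (hE : Admissible E) : AlgebraicIndependent ℚ (proj hE) := by
  classical
  refine algebraicIndependent_of_det _ ?_
  -- the special point
  set q : E := ⟨Finsupp.single (Sum.inr 0) 2, hE.sq 0⟩ with hq
  set u : E → ℚ := fun d => if d = q then 1 else coeff d.1 (G0 ℚ m k) with hu
  refine det_ne_zero_of_dual _ u fun v hv => ?_
  set w : E → DualNumber ℚ := fun i => inl (u i) + inr (v i) with hw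
  have hv' : ∀ d : E, coeff d.1 (gen hE w) = inl (coeff d.1 (gen hE u)) := by
    intro d
    rw [← aeval_proj, hv d, ← aeval_eq_eval, aeval_proj]
  have hqs : Special q.1 := Or.inr (Or.inr rfl)
  have huf : ∀ d : E, ¬Special d.1 → u d = coeff d.1 (G0 ℚ m k) := by
    intro d hd
    rw [hu]
    simp only
    rw [if_neg]
    intro h
    rw [h] at hd
    exact hd hqs
  have hG0 : ∀ d : (Fin (m + 1) ⊕ Fin (k + 2)) →₀ ℕ, Special d → coeff d (G0 ℚ m k) = 0 := by
    intro d hd
    by_contra hne
    exact (G0_support ℚ hE d (mem_support_iff.mpr hne)).2 hd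
  -- the free coefficients
  have hfree : ∀ d : E, ¬Special d.1 → v d = 0 := by
    intro d hd
    have h1 := hv' d
    rw [coeff_gen_free hE w d hd, coeff_gen_free hE u d hd, hw] at h1
    have h2 := congrArg TrivSqZeroExt.snd h1
    simpa using h2
  have hgw : gpart w = G0 (DualNumber ℚ) m k := by
    refine gpart_eq _ (G0_support _ hE) w fun d hd => ?_
    rw [hw]
    simp only
    rw [hfree d hd, huf d hd]
    have : coeff d.1 (G0 (DualNumber ℚ) m k) = inlHom ℚ ℚ (coeff d.1 (G0 ℚ m k)) := by
      rw [← coeff_map, map_G0]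
    rw [this]
    simp
  have hgu : gpart u = G0 ℚ m k := gpart_eq _ (G0_support _ hE) u huf
  -- the point
  have hpu : ∀ i, gpt hE u (Sum.inr i) = 0 := by
    intro i
    rw [gpt, Sum.elim_inr, hu]
    simp only
    rw [if_neg, hG0 _ (Or.inr (Or.inl ⟨i, rfl⟩))]
    intro h
    rw [hq, Subtype.mk.injEq] at h
    exact single_one_ne_two h
  have hpu0 : gpt hE u (Sum.inl 0) = 0 := by
    rw [gpt, Sum.elim_inl, if_pos rfl, hu]
    simp only
    rw [if_neg, hG0 _ (Or.inl rfl)]
    intro h
    rw [hq, Subtype.mk.injEq] at h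
    exact single_inr_ne_zero two_ne_zero h.symm
  have hmu : gmu hE u = 1 := by
    rw [gmu, hu]
    simp only
    rw [if_pos rfl]
  have hpw : ∀ i, gpt hE w (Sum.inr i) = inr (v ⟨Finsupp.single (Sum.inr i) 1, hE.lin i⟩) := by
    intro i
    have h1 := hpu i
    rw [gpt, Sum.elim_inr] at h1 ⊢
    rw [hw]
    simp only
    rw [h1, inl_zero, zero_add]
  have hpw0 : gpt hE w (Sum.inl 0) = inr (v ⟨0, hE.one⟩) := by
    have h1 := hpu0
    rw [gpt, Sum.elim_inl, if_pos rfl] at h1 ⊢
    rw [hw]
    simp only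
    rw [h1, inl_zero, zero_add]
  have hmuw : gmu hE w = 1 + inr (v q) := by
    have h1 := hmu
    rw [gmu] at h1 ⊢
    rw [hw]
    simp only
    rw [h1, inl_one]
  -- the coefficient of `x_0²`
  have hhalf : ∀ a : DualNumber ℚ, algebraMap ℚ (DualNumber ℚ) (1 / 2) * (2 * a) = a := by
    intro a
    rw [← mul_assoc, show (2 : DualNumber ℚ) = algebraMap ℚ (DualNumber ℚ) 2 from
      (map_ofNat _ 2).symm, ← map_mul]
    norm_num
  have hc2w : c2 hE w = -(gmu hE w) ^ 2 := by
    rw [c2, hgw, dir_dir_G0, eval_C, hhalf]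
  have hc2u : c2 hE u = -1 := by
    rw [c2, hgu, dir_dir_G0, eval_C, hmu]
    simp
  have hvq : v q = 0 := by
    have h1 := hv' q
    rw [show q.1 = Finsupp.single (Sum.inr 0) 2 from rfl, coeff_gen_sq, coeff_gen_sq, hc2w, hc2u,
      hmuw] at h1
    have h2 := congrArg TrivSqZeroExt.snd h1
    simp [pow_two] at h2
    linarith
  -- the coefficients of `x_i`
  have hvi : ∀ i, v ⟨Finsupp.single (Sum.inr i) 1, hE.lin i⟩ = 0 := by
    intro i
    have h1 := hv' ⟨Finsupp.single (Sum.inr i) 1, hE.lin i⟩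
    simp only at h1
    rw [coeff_gen_lin, coeff_gen_lin] at h1
    have hu1 : c1 hE u i = 0 := by
      rw [c1, hgu, pderiv_G0_inr, hpu 0, mul_zero, ite_self, sub_zero]
      split_ifs
      · simp
      · rw [map_mul, eval_X, hpu i, mul_zero, neg_zero]
    rw [hu1, c1, hgw, pderiv_G0_inr] at h1
    by_cases hi : i = 0
    · rw [if_pos hi, if_pos hi, map_zero, hc2w, hmuw, hvq, hpw 0] at h1
      have h2 := congrArg TrivSqZeroExt.snd h1
      simp at h2
      rw [hi]
      exact h2.resolve_right fst_two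
    · rw [if_neg hi, if_neg hi, map_mul, eval_X, hpw i] at h1
      have h2 := congrArg TrivSqZeroExt.snd h1
      rw [show (eval (gpt hE w)) (2 : MvPolynomial (Fin (m + 1) ⊕ Fin (k + 2)) (DualNumber ℚ)) =
        2 from map_ofNat _ 2] at h2
      simp at h2
      exact h2.resolve_right fst_two
  -- the constant coefficient
  have hv0 : v ⟨0, hE.one⟩ = 0 := by
    have h1 := hv' ⟨0, hE.one⟩
    simp only at h1
    rw [coeff_gen_one, coeff_gen_one, c0, c0, hgw, hgu, G0, G0] at h1
    simp only [map_add, eval_X, map_sum, map_pow, hpw, hpu, hvi, hpw0, hpu0, inr_zero] at h1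
    have h2 := congrArg TrivSqZeroExt.snd h1
    simp at h2
    exact h2
  funext d
  by_cases hd : Special d.1
  · rcases hd with h | ⟨i, h⟩ | h
    · have : d = ⟨0, hE.one⟩ := Subtype.ext h
      rw [this, hv0]
      rfl
    · have : d = ⟨Finsupp.single (Sum.inr i) 1, hE.lin i⟩ := Subtype.ext h
      rw [this, hvi]
      rfl
    · have : d = q := Subtype.ext h
      rw [this, hvq]
      rfl
  · exact hfree d hd

end Pool.Agent.L0h9.Gen
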