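import Pool.Agent.L0h9.Gen.Jac

/-! Potential density of the general member. -/

set_option autoImplicit false

namespace Pool.Agent.L0h9.Gen

open MvPolynomial

variable {m k : ℕ} {E : Finset ((Fin (m + 1) ⊕ Fin (k + 2)) →₀ ℕ)}

section node

variable {A : Type*} [CommRing A] [Algebra ℚ A]

/-- The special part of the polynomial. -/
noncomputable def spart (hE : Admissible E) (u : E → A) :
    MvPolynomial (Fin (m + 1) ⊕ Fin (k + 2)) A :=
  C (c2 hE u) * X (Sum.inr 0) ^ 2 + ∑ i, C (c1 hE u i) * X (Sum.inr i) + C (c0 hE u)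

theorem gen_eq (hE : Admissible E) (u : E → A) : gen hE u = gpart u + spart hE u := by
  rw [gen, spart]
  ring

theorem pderiv_spart_inl (hE : Admissible E) (u : E → A) (j : Fin (m + 1)) :
    pderiv (Sum.inl j) (spart hE u) = 0 := by
  classical
  rw [spart, map_add, map_add, pderiv_C, pderiv_C_mul, pderiv_pow, pderiv_X,
    Pi.single_eq_of_ne (fun h => by cases h), map_sum]
  rw [Finset.sum_eq_zero]
  · simp
  · intro i _
    rw [pderiv_C_mul, pderiv_X, Pi.single_eq_of_ne (fun h => by cases h)]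
    simp

theorem pderiv_spart_inr (hE : Admissible E) (u : E → A) (i : Fin (k + 2)) :
    pderiv (Sum.inr i) (spart hE u) =
      (if i = 0 then C (2 * c2 hE u) * X (Sum.inr 0) else 0) + C (c1 hE u i) := by
  classical
  rw [spart, map_add, map_add, pderiv_C, pderiv_C_mul, pderiv_pow, pderiv_X, map_sum,
    Finset.sum_eq_single i]
  · rw [pderiv_C_mul, pderiv_X, Pi.single_eq_same, add_zero]
    congr 1
    · split_ifs with hi
      · rw [hi, Pi.single_eq_same, C_mul,
          show (C 2 : MvPolynomial (Fin (m + 1) ⊕ Fin (k + 2)) A) = 2 from map_ofNat C 2]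
        norm_num
        ring
      · rw [Pi.single_eq_of_ne (fun h => hi (Sum.inr_injective h).symm)]
        simp
    · simp
  · intro j _ hj
    rw [pderiv_C_mul, pderiv_X, Pi.single_eq_of_ne (fun h => hj (Sum.inr_injective h))]
    simp
  · exact fun h => (h (Finset.mem_univ _)).elim

omit [Algebra ℚ A] in
theorem dir_add (μ : A) (P Q : MvPolynomial (Fin (m + 1) ⊕ Fin (k + 2)) A) :
    dir μ (P + Q) = dir μ P + dir μ Q := by
  rw [dir, dir, dir, map_add, map_add]
  ring

theorem dir_spart (hE : Admissible E) (u : E → A) (μ : A) :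
    dir μ (spart hE u) = C (2 * c2 hE u) * X (Sum.inr 0) +
      C (c1 hE u 0 + μ * c1 hE u (Fin.last (k + 1))) := by
  rw [dir, x0, xl, pderiv_spart_inr, pderiv_spart_inr, if_pos rfl,
    if_neg Fin.last_pos.ne', zero_add, C_add, C_mul]
  simp only [C_mul]
  ring

omit [Algebra ℚ A] in
theorem dir_lin (a b μ : A) :
    dir μ (C a * X (Sum.inr 0) + C b : MvPolynomial (Fin (m + 1) ⊕ Fin (k + 2)) A) = C a := by
  classical
  rw [dir, map_add, map_add, pderiv_C, pderiv_C, pderiv_C_mul, pderiv_C_mul,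
    pderiv_X, pderiv_X, x0, xl, Pi.single_eq_same, Pi.single_eq_of_ne
      (fun h => Fin.last_pos.ne' (Sum.inr_injective h).symm)]
  simp

theorem dir_dir_spart (hE : Admissible E) (u : E → A) (μ : A) :
    dir μ (dir μ (spart hE u)) = C (2 * c2 hE u) := by
  rw [dir_spart, dir_lin]

theorem dir_three_spart (hE : Admissible E) (u : E → A) (μ : A) :
    dir μ (dir μ (dir μ (spart hE u))) = 0 := by
  rw [dir_dir_spart, dir, pderiv_C, pderiv_C]
  simp

end node

theorem gen_nodeAt {Ω : Type*} [Field Ω] [CharZero Ω] [Algebra ℚ Ω] (hE : Admissible E)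
    (u : E → Ω)
    (h1 : ∀ j, eval (gpt hE u) (pderiv (Sum.inl j) (gpart u)) ≠ 0)
    (h2 : eval (gpt hE u) (dir (gmu hE u) (dir (gmu hE u) (dir (gmu hE u) (gpart u)))) ≠ 0)
    (h3 : eval (gpt hE u) (pderiv (xl (m + 1) k) (pderiv (xl (m + 1) k) (gpart u))) ≠ 0) :
    NodeAt (gen hE u) (gpt hE u) (gmu hE u) := by
  refine ⟨?_, ?_, ?_, ?_, ?_, ?_⟩
  · rw [gen_eq, spart, map_add, map_add, map_add, eval_C, map_mul, eval_C, map_pow, eval_X,
      map_sum, c0]
    simp only [map_mul, eval_C, eval_X]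
    ring
  · intro i
    rw [gen_eq, map_add, pderiv_spart_inr, map_add, map_add, eval_C, c1]
    split_ifs with hi
    · rw [hi, map_mul, eval_C, eval_X]
      ring
    · rw [map_zero]
      ring
  · intro j
    rw [gen_eq, map_add, pderiv_spart_inl, add_zero]
    exact h1 j
  · rw [gen_eq, dir_add, dir_add, dir_dir_spart, map_add, eval_C, c2]
    have : algebraMap ℚ Ω (1 / 2) = 1 / 2 := by simp
    rw [this]
    ring
  · rw [gen_eq, dir_add, dir_add, dir_add, dir_three_spart, add_zero]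
    exact h2
  · rw [gen_eq, map_add, map_add]
    have h4 : pderiv (xl (m + 1) k) (spart hE u) = C (c1 hE u (Fin.last (k + 1))) := by
      rw [xl, pderiv_spart_inr, if_neg Fin.last_pos.ne', zero_add]
    rw [h4, pderiv_C, add_zero]
    exact h3

/-- The polynomial which should not vanish. -/
noncomputable def hpoly (hE : Admissible E) : MvPolynomial E ℚ :=
  (∏ j, eval (gpt hE X) (pderiv (Sum.inl j) (gpart (X : E → MvPolynomial E ℚ)))) *
    eval (gpt hE X) (dir (gmu hE X) (dir (gmu hE X) (dir (gmu hE X)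
      (gpart (X : E → MvPolynomial E ℚ))))) *
    eval (gpt hE X) (pderiv (xl (m + 1) k) (pderiv (xl (m + 1) k)
      (gpart (X : E → MvPolynomial E ℚ))))

section eval

variable {A : Type*} [CommRing A] [Algebra ℚ A]

theorem aeval_comp_X (u : E → A) :
    (fun d : E => (aeval u : MvPolynomial E ℚ →ₐ[ℚ] A) (X d)) = u := by
  funext d
  rw [aeval_X]

theorem aeval_part1 (hE : Admissible E) (u : E → A) (v : Fin (m + 1) ⊕ Fin (k + 2)) :
    aeval u (eval (gpt hE X) (pderiv v (gpart (X : E → MvPolynomial E ℚ)))) =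
      eval (gpt hE u) (pderiv v (gpart u)) := by
  rw [map_eval' (aeval u : MvPolynomial E ℚ →ₐ[ℚ] A), ← pderiv_map, map_gpart, aeval_comp_X]

theorem aeval_part2 (hE : Admissible E) (u : E → A) :
    aeval u (eval (gpt hE X) (dir (gmu hE X) (dir (gmu hE X) (dir (gmu hE X)
      (gpart (X : E → MvPolynomial E ℚ)))))) =
      eval (gpt hE u) (dir (gmu hE u) (dir (gmu hE u) (dir (gmu hE u) (gpart u)))) := by
  have hmu : (aeval u : MvPolynomial E ℚ →ₐ[ℚ] A) (gmu hE X) = gmu hE u := by
    rw [gmu, gmu, aeval_X]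
  rw [map_eval' (aeval u : MvPolynomial E ℚ →ₐ[ℚ] A), map_dir, map_dir, map_dir, map_gpart,
    aeval_comp_X, hmu]

theorem aeval_part3 (hE : Admissible E) (u : E → A) (v : Fin (m + 1) ⊕ Fin (k + 2)) :
    aeval u (eval (gpt hE X) (pderiv v (pderiv v (gpart (X : E → MvPolynomial E ℚ))))) =
      eval (gpt hE u) (pderiv v (pderiv v (gpart u))) := by
  rw [map_eval' (aeval u : MvPolynomial E ℚ →ₐ[ℚ] A), ← pderiv_map, ← pderiv_map, map_gpart,
    aeval_comp_X]

theorem aeval_hpoly (hE : Admissible E) (u : E → A) :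
    aeval u (hpoly hE) = (∏ j, eval (gpt hE u) (pderiv (Sum.inl j) (gpart u))) *
      eval (gpt hE u) (dir (gmu hE u) (dir (gmu hE u) (dir (gmu hE u) (gpart u)))) *
      eval (gpt hE u) (pderiv (xl (m + 1) k) (pderiv (xl (m + 1) k) (gpart u))) := by
  rw [hpoly, map_mul, map_mul, map_prod, aeval_part2, aeval_part3]
  congr 2
  exact Finset.prod_congr rfl fun j _ => aeval_part1 hE u _

end eval

/-- A factor is not zero if it is not zero for one polynomial. -/
theorem gpart_coeff (H : MvPolynomial (Fin (m + 1) ⊕ Fin (k + 2)) ℚ)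
    (hH : ∀ d ∈ H.support, d ∈ E ∧ ¬Special d) :
    gpart (fun d : E => coeff d.1 H) = H :=
  gpart_eq H hH _ fun _ _ => rfl

theorem support_X_pow {v : Fin (m + 1) ⊕ Fin (k + 2)} {n : ℕ} :
    ∀ d ∈ (X v ^ n : MvPolynomial (Fin (m + 1) ⊕ Fin (k + 2)) ℚ).support,
      d = Finsupp.single v n := by
  classical
  intro d hd
  rw [mem_support_iff, coeff_X_pow] at hd
  by_contra hne
  rw [if_neg (Ne.symm hne)] at hd
  exact hd rfl

theorem hpoly_ne (hE : Admissible E) : hpoly hE ≠ 0 := by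
  classical
  rw [hpoly]
  refine mul_ne_zero (mul_ne_zero (Finset.prod_ne_zero_iff.mpr fun j _ => ?_) ?_) ?_
  · intro h0
    have h1 := aeval_part1 hE (fun d : E => coeff d.1 (X (Sum.inl j) ^ 1 :
      MvPolynomial (Fin (m + 1) ⊕ Fin (k + 2)) ℚ)) (Sum.inl j)
    rw [h0, map_zero, gpart_coeff _ (fun d hd => by
      rw [support_X_pow d hd]
      exact ⟨hE.linT j, not_special_inl j⟩), pow_one, pderiv_X, Pi.single_eq_same, map_one] at h1
    exact zero_ne_one h1
  · intro h0
    have h1 := aeval_part2 hE (fun d : E => coeff d.1 (X (Sum.inr 0) ^ 3 :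
      MvPolynomial (Fin (m + 1) ⊕ Fin (k + 2)) ℚ))
    rw [h0, map_zero, gpart_coeff _ (fun d hd => by
      rw [support_X_pow d hd]
      exact ⟨hE.cube, not_special_cube⟩)] at h1
    have e : ∀ (μ : ℚ), dir μ (dir μ (dir μ (X (Sum.inr 0) ^ 3 :
        MvPolynomial (Fin (m + 1) ⊕ Fin (k + 2)) ℚ))) = 6 := by
      intro μ
      have e1 : ∀ n : ℕ, dir μ (X (Sum.inr 0) ^ (n + 1) :
          MvPolynomial (Fin (m + 1) ⊕ Fin (k + 2)) ℚ) =
          ((n : MvPolynomial (Fin (m + 1) ⊕ Fin (k + 2)) ℚ) + 1) * X (Sum.inr 0) ^ n := by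
        intro n
        rw [dir, x0, xl, pderiv_pow, pderiv_pow, pderiv_X, pderiv_X, Pi.single_eq_same,
          Pi.single_eq_of_ne (fun h => Fin.last_pos.ne' (Sum.inr_injective h).symm)]
        simp
      have e2 : ∀ (n : ℕ) (P : MvPolynomial (Fin (m + 1) ⊕ Fin (k + 2)) ℚ),
          dir μ (((n : MvPolynomial (Fin (m + 1) ⊕ Fin (k + 2)) ℚ) + 1) * P) =
          ((n : MvPolynomial (Fin (m + 1) ⊕ Fin (k + 2)) ℚ) + 1) * dir μ P := by
        intro n P
        have : ((n : MvPolynomial (Fin (m + 1) ⊕ Fin (k + 2)) ℚ) + 1) = C ((n : ℚ) + 1) := by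
          simp
        rw [this, dir, dir, pderiv_C_mul, pderiv_C_mul]
        ring
      have e3 := e1 0
      rw [zero_add] at e3
      rw [e1 2, e2, e1 1, e2, e2, e3]
      push_cast
      norm_num
    rw [e] at h1
    rw [show (eval (gpt hE fun d : E => coeff d.1 (X (Sum.inr 0) ^ 3 :
      MvPolynomial (Fin (m + 1) ⊕ Fin (k + 2)) ℚ))) (6 : MvPolynomial _ ℚ) = 6 from
      map_ofNat _ 6] at h1
    norm_num at h1
  · intro h0
    have h1 := aeval_part3 hE (fun d : E => coeff d.1 (X (xl (m + 1) k) ^ 2 :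
      MvPolynomial (Fin (m + 1) ⊕ Fin (k + 2)) ℚ)) (xl (m + 1) k)
    rw [h0, map_zero, gpart_coeff _ (fun d hd => by
      rw [support_X_pow d hd]
      exact ⟨hE.sq _, not_special_sq Fin.last_pos.ne'⟩)] at h1
    have e : pderiv (xl (m + 1) k) (pderiv (xl (m + 1) k) (X (xl (m + 1) k) ^ 2 :
        MvPolynomial (Fin (m + 1) ⊕ Fin (k + 2)) ℚ)) = C 2 := by
      have e1 : pderiv (xl (m + 1) k) (X (xl (m + 1) k) ^ 2 :
          MvPolynomial (Fin (m + 1) ⊕ Fin (k + 2)) ℚ) = C 2 * X (xl (m + 1) k) := by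
        rw [pderiv_pow, pderiv_X_self,
          show (C 2 : MvPolynomial (Fin (m + 1) ⊕ Fin (k + 2)) ℚ) = 2 from map_ofNat C 2]
        norm_num
      rw [e1, pderiv_C_mul, pderiv_X_self]
      simp
    rw [e, eval_C] at h1
    norm_num at h1

/-- The general polynomial with the exponents in `E`. -/
noncomputable def poly {A : Type*} [CommRing A]
    {E : Finset ((Fin (m + 1) ⊕ Fin (k + 2)) →₀ ℕ)} (c : E → A) :
    MvPolynomial (Fin (m + 1) ⊕ Fin (k + 2)) A :=
  ∑ d : E, monomial d.1 (c d)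

theorem coeff_poly {A : Type*} [CommRing A] (c : E → A)
    (d : (Fin (m + 1) ⊕ Fin (k + 2)) →₀ ℕ) :
    coeff d (poly c) = if h : d ∈ E then c ⟨d, h⟩ else 0 := by
  classical
  rw [poly, coeff_sum]
  split_ifs with h
  · rw [Finset.sum_eq_single ⟨d, h⟩]
    · rw [coeff_monomial, if_pos rfl]
    · intro e _ he
      rw [coeff_monomial, if_neg]
      exact fun h1 => he (Subtype.ext h1)
    · exact fun h => (h (Finset.mem_univ _)).elim
  · refine Finset.sum_eq_zero fun e _ => ?_
    rw [coeff_monomial, if_neg]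
    exact fun h1 => h (h1 ▸ e.2)

theorem map_poly {A B : Type*} [CommRing A] [CommRing B] (φ : A →+* B) (c : E → A) :
    map φ (poly c) = poly fun d => φ (c d) := by
  rw [poly, poly, map_sum]
  exact Finset.sum_congr rfl fun d _ => map_monomial _ _ _

/-- **Potential density of the general member.** -/
theorem main (hE : Admissible E) : ∃ Φ : MvPolynomial E ℚ, Φ ≠ 0 ∧
    ∀ (K Ω : Type) [Field K] [Field Ω] [CharZero K] [CharZero Ω] [Algebra.IsAlgebraic ℚ Ω]
      [Algebra K Ω] [Algebra.IsAlgebraic K Ω] [IsAlgClosed Ω] (c : E → K), aeval c Φ ≠ 0 →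
      ∃ L : IntermediateField K Ω, FiniteDimensional K L ∧
        DensePoints (map (algebraMap K L) (poly c)) := by
  classical
  obtain ⟨Φ, hΦ, hgen⟩ := exists_general (proj hE) (algebraicIndependent_proj hE) (hpoly hE)
    (hpoly_ne hE)
  refine ⟨Φ, hΦ, ?_⟩
  intro K Ω _ _ _ _ _ _ _ _ c hc
  set ι := algebraMap K Ω with hι
  have hc' : aeval (fun d => ι (c d)) Φ ≠ 0 := by
    have h1 : aeval (fun d => ι (c d)) Φ = ι (aeval c Φ) := by
      rw [aeval_def, aeval_def, hom_eval₂]
      congr 1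
      exact RingHom.ext_rat _ _
    rw [h1]
    exact (map_ne_zero ι).mpr hc
  obtain ⟨u, hu, hh⟩ := hgen (Ω := Ω) (fun d => ι (c d)) hc'
  -- the polynomial is the polynomial of the incidence variety
  have hF : gen hE u = poly fun d => ι (c d) := by
    ext d
    rw [coeff_poly]
    split_ifs with h
    · rw [← hu ⟨d, h⟩, aeval_proj]
    · exact coeff_gen_out hE u d h
  rw [aeval_hpoly] at hh
  have hh1 := left_ne_zero_of_mul (left_ne_zero_of_mul hh)
  have hnode := gen_nodeAt hE u (fun j => Finset.prod_ne_zero_iff.mp hh1 j (Finset.mem_univ _))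
    (right_ne_zero_of_mul (left_ne_zero_of_mul hh)) (right_ne_zero_of_mul hh)
  rw [hF, ← map_poly] at hnode
  suffices h : ∃ L : IntermediateField K Ω, FiniteDimensional K L ∧
      BaseDense (map (algebraMap K L) (poly c)) by
    obtain ⟨L, hL, hd⟩ := h
    have : CharZero L := charZero_of_injective_algebraMap (algebraMap K L).injective
    exact ⟨L, hL, densePoints_of hd⟩
  refine pot_of_finite (Ω := Ω) (poly c) (Set.range (gpt hE u) ∪ {gmu hE u})
    ((Set.finite_range _).union (Set.finite_singleton _)) ?_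
  intro K1 hK1 hsub
  have : CharZero K1 := charZero_of_injective_algebraMap (algebraMap K K1).injective
  set a1 : Fin (m + 1) ⊕ Fin (k + 2) → K1 := fun v => ⟨gpt hE u v, hsub (Or.inl ⟨v, rfl⟩)⟩
    with ha1
  set μ1 : K1 := ⟨gmu hE u, hsub (Or.inr rfl)⟩ with hμ1
  set φ := algebraMap K1 Ω with hφ
  have hφa : (fun v => φ (a1 v)) = gpt hE u := rfl
  have hφμ : φ μ1 = gmu hE u := rfl
  set F1 := map (algebraMap K K1) (poly c) with hF1
  have hmapF : map φ F1 = map ι (poly c) := by
    rw [hF1, map_map, ← IsScalarTower.algebraMap_eq]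
  have hev : ∀ G : MvPolynomial (Fin (m + 1) ⊕ Fin (k + 2)) K1,
      eval (gpt hE u) (map φ G) = φ (eval a1 G) := by
    intro G
    rw [← hφa, eval_map]
    exact (eval₂_comp_left φ (RingHom.id K1) a1 G).symm ▸ rfl
  have hdir : ∀ G : MvPolynomial (Fin (m + 1) ⊕ Fin (k + 2)) K1,
      map φ (dir μ1 G) = dir (gmu hE u) (map φ G) := by
    intro G
    rw [dir, dir, map_add, map_mul, map_C, pderiv_map, pderiv_map, hφμ]
  have hN1 : NodeAt F1 a1 μ1 := by
    refine ⟨?_, fun i => ?_, fun j => ?_, ?_, ?_, ?_⟩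
    · apply (map_eq_zero φ).mp
      rw [← hev, hmapF]
      exact hnode.zero
    · apply (map_eq_zero φ).mp
      rw [← hev, ← pderiv_map, hmapF]
      exact hnode.singular i
    · apply (map_ne_zero φ).mp
      rw [← hev, ← pderiv_map, hmapF]
      exact hnode.trans j
    · apply (map_eq_zero φ).mp
      rw [← hev, hdir, hdir, hmapF]
      exact hnode.two
    · apply (map_ne_zero φ).mp
      rw [← hev, hdir, hdir, hdir, hmapF]
      exact hnode.three
    · apply (map_ne_zero φ).mp
      rw [← hev, ← pderiv_map, ← pderiv_map, hmapF]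
      exact hnode.last
  have hsupp : ∀ d ∈ F1.support, d ∈ E := by
    intro d hd
    rw [hF1, mem_support_iff, coeff_map, coeff_poly] at hd
    by_contra hne
    rw [dif_neg hne, map_zero] at hd
    exact hd rfl
  refine hN1.dense 0 ?_ (fun d hd => hE.degT d (hsupp d hd)) (fun d hd => hE.degX d (hsupp d hd))
  intro j hj
  apply Subtype.ext
  change gpt hE u (Sum.inl j) = 0
  rw [gpt, Sum.elim_inl, if_neg hj]

end Pool.Agent.L0h9.Gen
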