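import Pool.Agent.L0h9.Gen.Blow

/-! The conditions at a double point, in coordinates. -/

set_option autoImplicit false

namespace Pool.Agent.L0h9.Gen

open MvPolynomial Pool.Agent.L0h9.Tri

variable {K : Type*} [Field K]

theorem truncate_zero_monomial {r : ℕ} (i : Fin r) (e : Fin r →₀ ℕ) (c : K) :
    truncate (monomial e c) 0 i = if ∀ j, j < i → e j = 0 then monomial e c else 0 := by
  classical
  rw [truncate, aeval_monomial, Finsupp.prod_fintype _ _ (fun _ => pow_zero _)]
  split_ifs with h
  · rw [monomial_eq, Finsupp.prod_fintype _ _ (fun _ => pow_zero _), algebraMap_eq]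
    congr 1
    refine Finset.prod_congr rfl fun j _ => ?_
    by_cases hj : j < i
    · rw [h j hj, pow_zero, pow_zero]
    · rw [if_neg hj]
  · push Not at h
    obtain ⟨j, hj, hej⟩ := h
    rw [Finset.prod_eq_zero (Finset.mem_univ j), mul_zero]
    rw [if_pos hj, Pi.zero_apply, C_0, zero_pow hej]

theorem coeff_truncate_zero {r : ℕ} (P : MvPolynomial (Fin r) K) (i : Fin r) (d : Fin r →₀ ℕ) :
    coeff d (truncate P 0 i) = if ∀ j, j < i → d j = 0 then coeff d P else 0 := by
  classical
  induction P using MvPolynomial.induction_on' with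
  | monomial e c =>
    rw [truncate_zero_monomial]
    by_cases hed : e = d
    · rw [hed]
      split_ifs
      · rfl
      · exact coeff_zero _
    · have h0 : coeff d (monomial e c : MvPolynomial (Fin r) K) = 0 := by
        rw [coeff_monomial, if_neg hed]
      rw [h0, ite_self]
      split_ifs
      · exact h0
      · exact coeff_zero _
  | add p q hp hq =>
    have : truncate (p + q) 0 i = truncate p 0 i + truncate q 0 i := by
      rw [truncate, truncate, truncate, map_add]
    rw [this, coeff_add, hp, hq, coeff_add]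
    split_ifs
    · rfl
    · rw [add_zero]

theorem eval_zero_eq {α : Type*} (P : MvPolynomial α K) : eval 0 P = coeff 0 P := by
  rw [← constantCoeff_eq, ← eval_zero]

theorem split_fin {m n : ℕ} (i : Fin (m + n)) :
    (∃ j : Fin m, i = Fin.castAdd n j) ∨ (∃ i' : Fin n, i = Fin.natAdd m i') := by
  induction i using Fin.addCases with
  | left j => exact Or.inl ⟨j, rfl⟩
  | right j => exact Or.inr ⟨j, rfl⟩

theorem eval_zero_pderiv {α : Type*} [DecidableEq α] (P : MvPolynomial α K) (i : α) :
    eval 0 (pderiv i P) = coeff (Finsupp.single i 1) P := by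
  rw [eval_zero_eq, coeff_pderiv]
  simp

/-- The conditions at a double point. -/
structure IsNode {m k : ℕ} (F : MvPolynomial (Fin m ⊕ Fin (k + 2)) K) : Prop where
  zero : coeff 0 F = 0
  singular : ∀ i, coeff (Finsupp.single (Sum.inr i) 1) F = 0
  trans : ∀ j, coeff (Finsupp.single (Sum.inl j) 1) F ≠ 0
  degT : ∀ d ∈ F.support, ∀ j, d (Sum.inl j) ≤ 4
  degX : ∀ d ∈ F.support, (∀ j, d (Sum.inl j) = 0) → ∑ i, d (Sum.inr i) ≤ 6
  two : coeff (Finsupp.single (Sum.inr 0) 2) F = 0
  three : coeff (Finsupp.single (Sum.inr 0) 3) F ≠ 0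
  last : coeff (Finsupp.single (Sum.inr (Fin.last (k + 1))) 2) F ≠ 0

variable {m k : ℕ} {F : MvPolynomial (Fin m ⊕ Fin (k + 2)) K}

theorem wt_single_inl (j : Fin m) (a : ℕ) :
    wt (Finsupp.single (Sum.inl j) a : (Fin m ⊕ Fin (k + 2)) →₀ ℕ) = 2 * a := by
  rw [wt]
  have h1 : ∑ j', (Finsupp.single (Sum.inl j) a : (Fin m ⊕ Fin (k + 2)) →₀ ℕ) (Sum.inl j') = a := by
    rw [Finset.sum_eq_single j]
    · rw [Finsupp.single_eq_same]
    · intro b _ hb
      rw [Finsupp.single_eq_of_ne]
      exact fun h => hb (Sum.inl_injective h)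
    · exact fun h => (h (Finset.mem_univ _)).elim
  have h2 : ∑ i, (Finsupp.single (Sum.inl j) a : (Fin m ⊕ Fin (k + 2)) →₀ ℕ) (Sum.inr i) = 0 := by
    refine Finset.sum_eq_zero fun i _ => ?_
    rw [Finsupp.single_eq_of_ne]
    exact fun h => by cases h
  rw [h1, h2, add_zero]

theorem wt_single_inr (i : Fin (k + 2)) (a : ℕ) :
    wt (Finsupp.single (Sum.inr i) a : (Fin m ⊕ Fin (k + 2)) →₀ ℕ) = a := by
  rw [wt]
  have h1 : ∑ j', (Finsupp.single (Sum.inr i) a : (Fin m ⊕ Fin (k + 2)) →₀ ℕ) (Sum.inl j') = 0 := by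
    refine Finset.sum_eq_zero fun i _ => ?_
    rw [Finsupp.single_eq_of_ne]
    exact fun h => by cases h
  have h2 : ∑ i', (Finsupp.single (Sum.inr i) a : (Fin m ⊕ Fin (k + 2)) →₀ ℕ) (Sum.inr i') = a := by
    rw [Finset.sum_eq_single i]
    · rw [Finsupp.single_eq_same]
    · intro b _ hb
      rw [Finsupp.single_eq_of_ne]
      exact fun h => hb (Sum.inr_injective h)
    · exact fun h => (h (Finset.mem_univ _)).elim
  rw [h1, h2, mul_zero, zero_add]

theorem IsNode.wt_ge (h : IsNode F) : ∀ d ∈ F.support, 2 ≤ wt d := by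
  intro d hd
  by_contra hlt
  have hle : wt d ≤ 1 := by omega
  rw [mem_support_iff] at hd
  have hl : ∀ j, d (Sum.inl j) = 0 := by
    intro j
    have : d (Sum.inl j) ≤ ∑ j, d (Sum.inl j) :=
      Finset.single_le_sum (f := fun j => d (Sum.inl j)) (fun _ _ => Nat.zero_le _)
      (Finset.mem_univ j)
    rw [wt] at hle
    omega
  by_cases hr : ∀ i, d (Sum.inr i) = 0
  · have : d = 0 := by
      ext (j | i)
      · exact hl j
      · exact hr i
    rw [this] at hd
    exact hd h.zero
  · push Not at hr
    obtain ⟨i, hi⟩ := hr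
    have h1 : ∑ i', d (Sum.inr i') = d (Sum.inr i) + ∑ i' ∈ Finset.univ.erase i, d (Sum.inr i') :=
      (Finset.add_sum_erase _ _ (Finset.mem_univ i)).symm
    have h2 : d = Finsupp.single (Sum.inr i) 1 := by
      ext (j | i')
      · rw [hl j, Finsupp.single_eq_of_ne]
        exact fun h => by cases h
      · by_cases hi' : i' = i
        · rw [hi', Finsupp.single_eq_same]
          rw [wt, h1] at hle
          omega
        · rw [Finsupp.single_eq_of_ne (fun h => hi' (Sum.inr_injective h))]
          have h3 : d (Sum.inr i') ≤ ∑ i' ∈ Finset.univ.erase i, d (Sum.inr i') :=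
            Finset.single_le_sum (f := fun j => d (Sum.inr j))
            (fun _ _ => Nat.zero_le _) (Finset.mem_erase.mpr ⟨hi', Finset.mem_univ i'⟩)
          rw [wt, h1] at hle
          omega
    rw [h2] at hd
    exact hd (h.singular i)

theorem mu_single_inl (j : Fin m) :
    mu (Finsupp.single (Sum.inl j) 1 : (Fin m ⊕ Fin (k + 2)) →₀ ℕ) =
      Finsupp.single (Fin.castAdd (k + 2) j) 1 := by
  ext i
  induction i using Fin.addCases with
  | left j' =>
    rw [mu_left]
    by_cases hj : j' = j
    · rw [hj, Finsupp.single_eq_same, Finsupp.single_eq_same]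
    · rw [Finsupp.single_eq_of_ne fun h => hj (Sum.inl_injective h),
        Finsupp.single_eq_of_ne fun h => hj (Fin.castAdd_injective _ _ h)]
  | right i' =>
    have h1 : (Finsupp.single (Fin.castAdd (k + 2) j) 1 : Fin (m + (k + 2)) →₀ ℕ)
        (Fin.natAdd m i') = 0 := by
      rw [Finsupp.single_eq_of_ne]
      intro h
      have := congrArg Fin.val h
      rw [Fin.val_natAdd, Fin.val_castAdd] at this
      have := j.isLt
      omega
    rw [h1]
    by_cases hi : i' = 0
    · rw [hi, mu_zero, wt_single_inl]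
    · rw [mu_right _ hi, Finsupp.single_eq_of_ne]
      exact fun h => by cases h

theorem mu_single_zero (a : ℕ) :
    mu (Finsupp.single (Sum.inr 0) a : (Fin m ⊕ Fin (k + 2)) →₀ ℕ) =
      Finsupp.single (Fin.natAdd m 0) (a - 2) := by
  ext i
  induction i using Fin.addCases with
  | left j' =>
    rw [mu_left, Finsupp.single_eq_of_ne (fun h => by cases h), Finsupp.single_eq_of_ne]
    intro h
    have := congrArg Fin.val h
    rw [Fin.val_natAdd, Fin.val_castAdd] at this
    have := j'.isLt
    omega
  | right i' =>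
    by_cases hi : i' = 0
    · rw [hi, mu_zero, wt_single_inr, Finsupp.single_eq_same]
    · rw [mu_right _ hi, Finsupp.single_eq_of_ne fun h => hi (Sum.inr_injective h),
        Finsupp.single_eq_of_ne fun h => hi (Fin.natAdd_injective _ _ h)]

theorem mu_single_last :
    mu (Finsupp.single (Sum.inr (Fin.last (k + 1))) 2 : (Fin m ⊕ Fin (k + 2)) →₀ ℕ) =
      Finsupp.single (Fin.natAdd m (Fin.last (k + 1))) 2 := by
  have hl0 : Fin.last (k + 1) ≠ 0 := Fin.last_pos.ne'
  ext i
  induction i using Fin.addCases with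
  | left j' =>
    rw [mu_left, Finsupp.single_eq_of_ne (fun h => by cases h), Finsupp.single_eq_of_ne]
    intro h
    have := congrArg Fin.val h
    rw [Fin.val_natAdd, Fin.val_castAdd] at this
    have := j'.isLt
    omega
  | right i' =>
    by_cases hi : i' = 0
    · rw [hi, mu_zero, wt_single_inr, Finsupp.single_eq_of_ne
        fun h => hl0 (Fin.natAdd_injective _ _ h).symm, Nat.sub_self]
    · rw [mu_right _ hi]
      by_cases hil : i' = Fin.last (k + 1)
      · rw [hil, Finsupp.single_eq_same, Finsupp.single_eq_same]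
      · rw [Finsupp.single_eq_of_ne fun h => hil (Sum.inr_injective h),
          Finsupp.single_eq_of_ne fun h => hil (Fin.natAdd_injective _ _ h)]

/-- **The substitution at a double point gives a triangular polynomial.** -/
theorem IsNode.isTri (h : IsNode F) :
    IsTri (r := m + (k + 1)) (blow F) (0 : Fin (m + (k + 1) + 1) → K) := by
  classical
  have hw := h.wt_ge
  -- degrees
  have hdeg : ∀ i : Fin (m + (k + 2)), ∀ n : ℕ,
      (∀ d ∈ F.support, (∀ j, j < i → mu d j = 0) → mu d i ≤ n) →
      degreeOf i (truncate (blow F) 0 i) ≤ n := by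
    intro i n hn
    rw [degreeOf_le_iff]
    intro e he
    rw [mem_support_iff, coeff_truncate_zero] at he
    split_ifs at he with h1
    · obtain ⟨d, hd, rfl⟩ := mem_support_blow (mem_support_iff.mpr he)
      exact hn d hd h1
    · exact (he rfl).elim
  -- the variables `y`
  have hdegy : ∀ i' : Fin (k + 2), i' ≠ 0 → ∀ d ∈ F.support,
      (∀ j, j < Fin.natAdd m i' → mu d j = 0) → mu d (Fin.natAdd m i') ≤ 2 := by
    intro i' hi' d hd hj
    have h1 : ∀ j, d (Sum.inl j) = 0 := fun j => by
      rw [← mu_left]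
      apply hj
      rw [Fin.lt_def, Fin.val_castAdd, Fin.val_natAdd]
      have := j.isLt
      omega
    have h2 : wt d - 2 = 0 := by
      rw [← mu_zero]
      apply hj
      rw [Fin.lt_def, Fin.val_natAdd, Fin.val_natAdd]
      have : (0 : Fin (k + 2)) < i' := Fin.pos_of_ne_zero hi'
      rw [Fin.lt_def] at this
      omega
    rw [mu_right d hi']
    have h3 : d (Sum.inr i') ≤ ∑ i, d (Sum.inr i) :=
      Finset.single_le_sum (f := fun j => d (Sum.inr j)) (fun _ _ => Nat.zero_le _)
      (Finset.mem_univ i')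
    rw [wt] at h2
    omega
  refine ⟨?_, ?_, ?_, ?_⟩
  · -- zero
    rw [eval_zero_eq]
    have h1 : (0 : Fin (m + (k + 2)) →₀ ℕ) =
        mu (Finsupp.single (Sum.inr 0) 2 : (Fin m ⊕ Fin (k + 2)) →₀ ℕ) := by
      rw [mu_single_zero 2, Nat.sub_self, Finsupp.single_zero]
    change coeff (0 : Fin (m + (k + 2)) →₀ ℕ) (blow F) = 0
    rw [h1, coeff_blow F hw _ (by rw [wt_single_inr])]
    exact h.two
  · -- degree
    intro i
    refine hdeg i 4 fun d hd hj => ?_
    rcases split_fin (m := m) (n := k + 2) i with ⟨j, rfl⟩ | ⟨i', rfl⟩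
    · rw [mu_left]
      exact h.degT d hd j
    · by_cases hi' : i' = 0
      · rw [hi', mu_zero]
        have h1 : ∀ j, d (Sum.inl j) = 0 := fun j => by
          rw [← mu_left]
          apply hj
          rw [Fin.lt_def, Fin.val_castAdd, Fin.val_natAdd]
          have := j.isLt
          omega
        have h2 := h.degX d hd h1
        rw [wt, Finset.sum_eq_zero fun j _ => h1 j]
        omega
      · exact (hdegy i' hi' d hd hj).trans (by norm_num)
  · -- simple
    intro i hi hdeg2
    have : eval (0 : Fin (m + (k + 2)) → K) (pderiv i (blow F)) ≠ 0 := by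
      rw [eval_zero_pderiv]
      rcases split_fin (m := m) (n := k + 2) i with ⟨j, rfl⟩ | ⟨i', rfl⟩
      · rw [← mu_single_inl, coeff_blow F hw _ (by rw [wt_single_inl])]
        exact h.trans j
      · by_cases hi' : i' = 0
        · have h1 : Finsupp.single (Fin.natAdd m i') 1 =
              mu (Finsupp.single (Sum.inr 0) 3 : (Fin m ⊕ Fin (k + 2)) →₀ ℕ) := by
            rw [mu_single_zero 3, hi']
          rw [h1, coeff_blow F hw _ (by rw [wt_single_inr]; norm_num)]
          exact h.three
        · exfalso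
          have := hdeg (Fin.natAdd m i') 2 (hdegy i' hi')
          exact absurd hdeg2 (not_lt.mpr this)
    exact this
  · -- last
    intro h0
    have h1 : coeff (Finsupp.single (Fin.natAdd m (Fin.last (k + 1))) 2 :
        Fin (m + (k + 2)) →₀ ℕ)
        (truncate (blow F) 0 (Fin.natAdd m (Fin.last (k + 1)))) = 0 := by
      have hlast : Fin.natAdd m (Fin.last (k + 1)) = Fin.last (m + (k + 1)) := rfl
      rw [hlast]
      exact (congrArg (coeff _) h0).trans (coeff_zero _)
    rw [coeff_truncate_zero, if_pos] at h1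
    · rw [← mu_single_last, coeff_blow F hw _ (by rw [wt_single_inr])] at h1
      exact h.last h1
    · intro j hj
      rw [Finsupp.single_eq_of_ne hj.ne]

end Pool.Agent.L0h9.Gen
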