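import Pool.Agent.L0h9.Tri.Final

/-! Density of points and substitutions. -/

set_option autoImplicit false

namespace Pool.Agent.L0h9.Gen

open MvPolynomial Pool.Agent.L0h9.Tri

/-- The points `x` with `F(x)` a nonzero square are dense. -/
def BaseDense {K : Type*} [Field K] {α : Type*} (F : MvPolynomial α K) : Prop :=
  ∀ G : MvPolynomial α K,
    (∀ x : α → K, (∃ w : K, w ≠ 0 ∧ w ^ 2 = eval x F) → eval x G = 0) → G = 0

/-- The `K`-points are dense on `w² = F(x)`: a polynomial which vanishes at all of them is a
multiple of `w² - F(x)`. The variable `none` stands for `w`. -/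
def DensePoints {K : Type*} [Field K] {α : Type*} (F : MvPolynomial α K) : Prop :=
  ∀ G : MvPolynomial (Option α) K,
    (∀ (x : α → K) (w : K), w ^ 2 = eval x F → eval (fun o => o.elim w x) G = 0) →
      (X none ^ 2 - rename some F) ∣ G

theorem eval_algHom {K : Type*} [Field K] {α β : Type*}
    (θ : MvPolynomial α K →ₐ[K] MvPolynomial β K) (x : β → K) (G : MvPolynomial α K) :
    eval x (θ G) = eval (fun i => eval x (θ (X i))) G := by
  have h : (aeval x : MvPolynomial β K →ₐ[K] K).comp θ = aeval (fun i => eval x (θ (X i))) := by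
    apply MvPolynomial.algHom_ext
    intro i
    rw [AlgHom.comp_apply, aeval_X, aeval_eq_eval]
  have h1 := congrArg (fun f => f G) h
  simp only [AlgHom.comp_apply, aeval_eq_eval] at h1
  exact h1

theorem BaseDense.of_subst {K : Type*} [Field K] {α β : Type*} {F : MvPolynomial α K}
    {P : MvPolynomial β K} (θ : MvPolynomial α K →ₐ[K] MvPolynomial β K)
    (hθ : Function.Injective θ) (g : MvPolynomial β K) (hg : g ≠ 0) (h : θ F = g ^ 2 * P)
    (hP : BaseDense P) : BaseDense F := by
  intro G hG
  have h0 : θ G * g = 0 := by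
    apply hP
    rintro x ⟨w, hw0, hw⟩
    by_cases hgx : eval x g = 0
    · rw [map_mul, hgx, mul_zero]
    · have h1 := hG (fun i => eval x (θ (X i))) ⟨eval x g * w, mul_ne_zero hgx hw0, by
        rw [← eval_algHom, h, map_mul, map_pow, mul_pow, hw]⟩
      rw [map_mul, eval_algHom, h1, zero_mul]
  have h2 := (mul_eq_zero.mp h0).resolve_right hg
  exact hθ (by rw [h2, map_zero])

theorem optionEquivLeft_rename_some {K : Type*} [Field K] {α : Type*} (P : MvPolynomial α K) :
    optionEquivLeft K α (rename some P) = Polynomial.C P := by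
  induction P using MvPolynomial.induction_on with
  | C c => rw [rename_C, optionEquivLeft_C]
  | add p q hp hq => rw [map_add, map_add, hp, hq, Polynomial.C_add]
  | mul_X p n hp =>
    rw [map_mul, map_mul, hp, rename_X, optionEquivLeft_X_some, Polynomial.C_mul]

theorem densePoints_of {K : Type*} [Field K] [CharZero K] {α : Type*} {P : MvPolynomial α K}
    (h : BaseDense P) : DensePoints P := by
  intro G hG
  set g := optionEquivLeft K α G with hg
  set Q : Polynomial (MvPolynomial α K) := Polynomial.X ^ 2 - Polynomial.C P with hQ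
  have hQm : Q.Monic := Polynomial.monic_X_pow_sub_C _ (by norm_num)
  have hQd : Q.natDegree = 2 := Polynomial.natDegree_X_pow_sub_C
  set R := g %ₘ Q with hR
  have hrd : R.natDegree < 2 := by
    have := Polynomial.natDegree_modByMonic_lt g hQm (by
      intro h1
      rw [h1] at hQd
      simp at hQd)
    rwa [hQd] at this
  have hdiv : g = R + Q * (g /ₘ Q) := (Polynomial.modByMonic_add_div g Q).symm
  have ev : ∀ (x : α → K) (w : K), w ^ 2 = eval x P →
      eval (fun o => o.elim w x : Option α → K) G =
        eval x (R.coeff 0) + eval x (R.coeff 1) * w := by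
    intro x w hw
    rw [optionEquivLeft_elim_eval, ← hg, hdiv, Polynomial.map_add, Polynomial.map_mul,
      Polynomial.eval_add, Polynomial.eval_mul]
    have hQe : (Q.map (eval x)).eval w = 0 := by
      rw [hQ, Polynomial.map_sub, Polynomial.map_pow, Polynomial.map_X, Polynomial.map_C,
        Polynomial.eval_sub, Polynomial.eval_pow, Polynomial.eval_X, Polynomial.eval_C, hw,
        sub_self]
    rw [hQe, zero_mul, add_zero, Polynomial.eval_eq_sum_range' (n := 2)
        (lt_of_le_of_lt Polynomial.natDegree_map_le hrd)]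
    simp [Finset.sum_range_succ]
  have h0 : ∀ (x : α → K) (w : K), w ≠ 0 → w ^ 2 = eval x P →
      eval x (R.coeff 0) = 0 ∧ eval x (R.coeff 1) = 0 := by
    intro x w hw0 hw
    have e1 := hG x w hw
    have e2 := hG x (-w) (by rw [neg_sq]; exact hw)
    rw [ev x w hw] at e1
    rw [ev x (-w) (by rw [neg_sq]; exact hw)] at e2
    have e3 : 2 * eval x (R.coeff 0) = 0 := by linear_combination e1 + e2
    have e4 : 2 * w * eval x (R.coeff 1) = 0 := by linear_combination e1 - e2
    exact ⟨(mul_eq_zero.mp e3).resolve_left two_ne_zero,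
      (mul_eq_zero.mp e4).resolve_left (mul_ne_zero two_ne_zero hw0)⟩
  have c0 : R.coeff 0 = 0 := h _ fun x ⟨w, hw0, hw⟩ => (h0 x w hw0 hw).1
  have c1 : R.coeff 1 = 0 := h _ fun x ⟨w, hw0, hw⟩ => (h0 x w hw0 hw).2
  have hR0 : R = 0 := by
    ext1 k
    rw [Polynomial.coeff_zero]
    rcases Nat.lt_or_ge k 2 with hk | hk
    · interval_cases k
      · exact c0
      · exact c1
    · exact Polynomial.coeff_eq_zero_of_natDegree_lt (by omega)
  have hdvd : Q ∣ g := ⟨g /ₘ Q, by rw [hR0, zero_add] at hdiv; exact hdiv⟩
  have hQ' : optionEquivLeft K α (X none ^ 2 - rename some P) = Q := by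
    rw [map_sub, map_pow, optionEquivLeft_X_none, optionEquivLeft_rename_some]
  rw [← hQ', hg] at hdvd
  obtain ⟨c, hc⟩ := hdvd
  refine ⟨(optionEquivLeft K α).symm c, ?_⟩
  apply (optionEquivLeft K α).injective
  rw [hc, map_mul, AlgEquiv.apply_symm_apply]

/-- Over a field containing the point, a quadratic extension is enough. -/
theorem base_quadratic {K : Type*} (Ω : Type*) [Field K] [Field Ω] [CharZero K] [CharZero Ω]
    [Algebra.IsAlgebraic ℚ Ω] [Algebra K Ω] [IsAlgClosed Ω] {r : ℕ}
    (P : MvPolynomial (Fin (r + 1)) K) (a : Fin (r + 1) → K) (h : IsTri P a) :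
    ∃ L : IntermediateField K Ω, FiniteDimensional K L ∧
      BaseDense (map (algebraMap K L) P) := by
  obtain ⟨L, f, hfin, hrank, hs⟩ := exists_seed Ω (lastPoly P a)
  refine ⟨L, hfin, ?_⟩
  have : CharZero L := charZero_of_injective_algebraMap (algebraMap K L).injective
  intro G hG
  refine dense_field (M := L) f (map (algebraMap K L) P) (fun j => algebraMap K L (a j)) ?_ ?_ G
    fun x hx => hG x hx
  · exact (isTri_map_iff _ _ _).mpr h
  · rw [lastPoly_map]
    exact hs

/-- Enlarging the field of definition of the data. -/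
theorem pot_of_finite {K Ω : Type*} [Field K] [Field Ω] [CharZero K] [CharZero Ω]
    [Algebra K Ω] [Algebra.IsAlgebraic K Ω] {α : Type*} (F : MvPolynomial α K)
    (S : Set Ω) (hS : S.Finite)
    (h : ∀ K1 : IntermediateField K Ω, FiniteDimensional K K1 → S ⊆ K1 →
      ∃ L : IntermediateField K1 Ω, FiniteDimensional K1 L ∧
        BaseDense (map (algebraMap K1 L) (map (algebraMap K K1) F))) :
    ∃ L : IntermediateField K Ω, FiniteDimensional K L ∧ BaseDense (map (algebraMap K L) F) := by
  have hfin1 : FiniteDimensional K (IntermediateField.adjoin K S) := by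
    have : Finite S := hS
    exact IntermediateField.finiteDimensional_adjoin fun x _ =>
      (Algebra.IsAlgebraic.isAlgebraic x).isIntegral
  obtain ⟨L, hL1, hL2⟩ := h (IntermediateField.adjoin K S) hfin1
    (IntermediateField.subset_adjoin K S)
  refine ⟨L.restrictScalars K, FiniteDimensional.trans K (IntermediateField.adjoin K S) L, ?_⟩
  rw [map_map, ← IsScalarTower.algebraMap_eq] at hL2
  exact hL2

end Pool.Agent.L0h9.Gen
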